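import Pool.Agent.Work.MP_1ba01c_an.Rot

set_option autoImplicit false

open Set Filter Topology MeasureTheory
open scoped NNReal

namespace Pool.Agent.Work.MP_1ba01c_an

variable {ε b α : ℝ} {φ ψ : ℝ → ℝ}

lemma reflect_pos (h : IsSol ε b α φ) (h0 : φ 0 = Real.pi / 2) (t : ℝ) :
    φ (-t) = Real.pi - φ t := by
  have := unique h.reflect h (t₀ := 0) (by simp only [neg_zero]; rw [h0]; ring)
  have h1 := congrFun this (-t)
  simp only [neg_neg] at h1
  exact h1.symm

lemma reflect_neg (h : IsSol ε b α φ) (h0 : φ 0 = -(Real.pi / 2)) (t : ℝ) :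
    φ (-t) = -Real.pi - φ t := by
  have := unique (h.reflect.add_int (-1)) h (t₀ := 0) (by
    simp only [neg_zero]; rw [h0]; push_cast; ring)
  have h1 := congrFun this (-t)
  simp only [neg_neg] at h1
  rw [← h1]; push_cast; ring

/-- half period form of the adjacency condition -/
def Adj (ε b α : ℝ) (r : ℤ) : Prop :=
  fl ε b α (Real.pi / 2) Real.pi = Real.pi / 2 + Real.pi * r ∧
    fl ε b α (-(Real.pi / 2)) Real.pi = -(Real.pi / 2) + Real.pi * r

lemma adj_of_id {r : ℤ} (h : ∀ x, PM ε b α x = x + 2 * Real.pi * r) : Adj ε b α r := by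
  constructor
  · have hs := fl_sol ε b α (Real.pi / 2)
    have h1 := per_of_fix hs (r := r) (by rw [fl_zero]; exact h _) (-Real.pi)
    have h2 := reflect_pos hs (fl_zero _ _ _ _) Real.pi
    rw [show -Real.pi + 2 * Real.pi = Real.pi by ring, h2] at h1
    linarith
  · have hs := fl_sol ε b α (-(Real.pi / 2))
    have h1 := per_of_fix hs (r := r) (by rw [fl_zero]; exact h _) (-Real.pi)
    have h2 := reflect_neg hs (fl_zero _ _ _ _) Real.pi
    rw [show -Real.pi + 2 * Real.pi = Real.pi by ring, h2] at h1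
    linarith

lemma per_of_half {r : ℤ} (h : IsSol ε b α φ) (h0 : φ Real.pi = φ (-Real.pi) + 2 * Real.pi * r)
    (t : ℝ) : φ (t + 2 * Real.pi) = φ t + 2 * Real.pi * r := by
  have := unique h.shift (h.add_int r) (t₀ := -Real.pi) (by
    rw [show -Real.pi + 2 * Real.pi = Real.pi by ring, h0])
  exact congrFun this t

lemma Adj.per_pos {r : ℤ} (h : Adj ε b α r) (t : ℝ) :
    fl ε b α (Real.pi / 2) (t + 2 * Real.pi) = fl ε b α (Real.pi / 2) t + 2 * Real.pi * r := by
  have hs := fl_sol ε b α (Real.pi / 2)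
  apply per_of_half hs
  rw [reflect_pos hs (fl_zero _ _ _ _) Real.pi, h.1]; ring

lemma Adj.per_neg {r : ℤ} (h : Adj ε b α r) (t : ℝ) :
    fl ε b α (-(Real.pi / 2)) (t + 2 * Real.pi) =
      fl ε b α (-(Real.pi / 2)) t + 2 * Real.pi * r := by
  have hs := fl_sol ε b α (-(Real.pi / 2))
  apply per_of_half hs
  rw [reflect_neg hs (fl_zero _ _ _ _) Real.pi, h.2]; ring

/-- the conserved quantity -/
lemma cross (h : IsSol ε b α φ) (h' : IsSol ε b α ψ) (s t : ℝ) :
    Real.exp ((ε / 2) * ((∫ u in (0:ℝ)..s, Real.cos (φ u)) + ∫ u in (0:ℝ)..s, Real.cos (ψ u))) *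
      Real.sin ((φ s - ψ s) / 2) =
    Real.exp ((ε / 2) * ((∫ u in (0:ℝ)..t, Real.cos (φ u)) + ∫ u in (0:ℝ)..t, Real.cos (ψ u))) *
      Real.sin ((φ t - ψ t) / 2) := by
  have hφ := h.continuous
  have hψ := h'.continuous
  have hc1 : Continuous fun u => Real.cos (φ u) := by fun_prop
  have hc2 : Continuous fun u => Real.cos (ψ u) := by fun_prop
  have hI1 : ∀ t, HasDerivAt (fun t => ∫ u in (0:ℝ)..t, Real.cos (φ u)) (Real.cos (φ t)) t :=
    fun t => intervalIntegral.integral_hasDerivAt_right (hc1.intervalIntegrable _ _)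
      (hc1.stronglyMeasurableAtFilter _ _) hc1.continuousAt
  have hI2 : ∀ t, HasDerivAt (fun t => ∫ u in (0:ℝ)..t, Real.cos (ψ u)) (Real.cos (ψ t)) t :=
    fun t => intervalIntegral.integral_hasDerivAt_right (hc2.intervalIntegrable _ _)
      (hc2.stronglyMeasurableAtFilter _ _) hc2.continuousAt
  have hd : ∀ t, HasDerivAt (fun t => Real.exp ((ε / 2) * ((∫ u in (0:ℝ)..t, Real.cos (φ u)) +
      ∫ u in (0:ℝ)..t, Real.cos (ψ u))) * Real.sin ((φ t - ψ t) / 2)) 0 t := by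
    intro t
    have h1 := ((((hI1 t).add (hI2 t)).const_mul (ε / 2)).exp).mul
      ((((h t).sub (h' t)).div_const 2).sin)
    refine h1.congr_deriv ?_
    simp only [Pi.add_apply, Pi.sub_apply]
    have h2 : Real.cos (φ t) + Real.cos (ψ t) =
        2 * Real.cos ((φ t + ψ t) / 2) * Real.cos ((φ t - ψ t) / 2) := Real.cos_add_cos _ _
    have h3 : Real.sin (φ t) - Real.sin (ψ t) =
        2 * Real.sin ((φ t - ψ t) / 2) * Real.cos ((φ t + ψ t) / 2) := Real.sin_sub_sin _ _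
    generalize Real.exp ((ε / 2) * ((∫ u in (0:ℝ)..t, Real.cos (φ u)) +
      ∫ u in (0:ℝ)..t, Real.cos (ψ u))) = E
    generalize Real.sin ((φ t - ψ t) / 2) = S at h3 ⊢
    generalize Real.cos ((φ t - ψ t) / 2) = C at h2 ⊢
    generalize Real.cos ((φ t + ψ t) / 2) = D at h2 h3
    linear_combination (E * S * (ε / 2)) * h2 - (E * C * ε / 2) * h3
  have := is_const_of_deriv_eq_zero (f := fun t => Real.exp ((ε / 2) *
    ((∫ u in (0:ℝ)..t, Real.cos (φ u)) +
      ∫ u in (0:ℝ)..t, Real.cos (ψ u))) * Real.sin ((φ t - ψ t) / 2))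
    (fun t => (hd t).differentiableAt) (fun t => (hd t).deriv) s t
  exact this

lemma int_neg_of_odd (h : ∀ t, Real.cos (φ (-t)) = -Real.cos (φ t)) :
    ∫ u in (0:ℝ)..(-Real.pi), Real.cos (φ u) = ∫ u in (0:ℝ)..Real.pi, Real.cos (φ u) := by
  have h1 : ∫ u in (0:ℝ)..Real.pi, Real.cos (φ (-u)) = ∫ u in (-Real.pi)..(-0), Real.cos (φ u) :=
    intervalIntegral.integral_comp_neg (fun u => Real.cos (φ u))
  simp only [h] at h1
  rw [intervalIntegral.integral_neg, neg_zero] at h1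
  rw [intervalIntegral.integral_symm, ← h1, neg_neg]

theorem id_of_adj {r : ℤ} (h : Adj ε b α r) (x : ℝ) : PM ε b α x = x + 2 * Real.pi * r := by
  have hpi := Real.pi_pos
  set φ₁ := fl ε b α (Real.pi / 2) with hφ₁
  set φ₂ := fl ε b α (-(Real.pi / 2)) with hφ₂
  set ψ := fl ε b α x with hψ
  have s₁ : IsSol ε b α φ₁ := fl_sol _ _ _ _
  have s₂ : IsSol ε b α φ₂ := fl_sol _ _ _ _
  have sψ : IsSol ε b α ψ := fl_sol _ _ _ _
  have r₁ := reflect_pos s₁ (fl_zero _ _ _ _)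
  have r₂ := reflect_neg s₂ (fl_zero _ _ _ _)
  have e₁ : φ₁ Real.pi = Real.pi / 2 + Real.pi * r := h.1
  have e₂ : φ₂ Real.pi = -(Real.pi / 2) + Real.pi * r := h.2
  have e₁' : φ₁ (-Real.pi) = Real.pi / 2 - Real.pi * r := by rw [r₁, e₁]; ring
  have e₂' : φ₂ (-Real.pi) = -(Real.pi / 2) - Real.pi * r := by rw [r₂, e₂]; ring
  have o₁ := int_neg_of_odd (φ := φ₁) (fun t => by rw [r₁, Real.cos_pi_sub])
  have o₂ := int_neg_of_odd (φ := φ₂) (fun t => by
    rw [r₂, show -Real.pi - φ₂ t = -(Real.pi + φ₂ t) by ring, Real.cos_neg,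
      add_comm, Real.cos_add_pi])
  have c₁ := cross s₁ sψ Real.pi (-Real.pi)
  have c₂ := cross s₂ sψ Real.pi (-Real.pi)
  rw [o₁, e₁, e₁'] at c₁
  rw [o₂, e₂, e₂'] at c₂
  set H₁ := ∫ u in (0:ℝ)..Real.pi, Real.cos (φ₁ u)
  set H₂ := ∫ u in (0:ℝ)..Real.pi, Real.cos (φ₂ u)
  set P := ∫ u in (0:ℝ)..Real.pi, Real.cos (ψ u)
  set Q := ∫ u in (0:ℝ)..(-Real.pi), Real.cos (ψ u)
  set E := Real.exp (ε / 2 * (P - Q)) with hE
  have hEpos : 0 < E := Real.exp_pos _
  have x₁ : Real.exp (ε / 2 * (H₁ + P)) = E * Real.exp (ε / 2 * (H₁ + Q)) := by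
    rw [hE, ← Real.exp_add]; congr 1; ring
  have x₂ : Real.exp (ε / 2 * (H₂ + P)) = E * Real.exp (ε / 2 * (H₂ + Q)) := by
    rw [hE, ← Real.exp_add]; congr 1; ring
  rw [x₁] at c₁
  rw [x₂] at c₂
  set a := (-(Real.pi * r) - ψ (-Real.pi)) / 2 with ha
  set a' := (Real.pi * r - ψ Real.pi) / 2 with ha'
  have f₁ : E * Real.sin (a' + Real.pi / 4) = Real.sin (a + Real.pi / 4) := by
    have hne := (Real.exp_pos (ε / 2 * (H₁ + Q))).ne'
    have g1 : (Real.pi / 2 + Real.pi * r - ψ Real.pi) / 2 = a' + Real.pi / 4 := by rw [ha']; ring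
    have g2 : (Real.pi / 2 - Real.pi * r - ψ (-Real.pi)) / 2 = a + Real.pi / 4 := by
      rw [ha]; ring
    rw [g1, g2] at c₁
    apply mul_left_cancel₀ hne
    linear_combination c₁
  have f₂ : E * Real.sin (a' - Real.pi / 4) = Real.sin (a - Real.pi / 4) := by
    have hne := (Real.exp_pos (ε / 2 * (H₂ + Q))).ne'
    have g1 : (-(Real.pi / 2) + Real.pi * r - ψ Real.pi) / 2 = a' - Real.pi / 4 := by
      rw [ha']; ring
    have g2 : (-(Real.pi / 2) - Real.pi * r - ψ (-Real.pi)) / 2 = a - Real.pi / 4 := by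
      rw [ha]; ring
    rw [g1, g2] at c₂
    apply mul_left_cancel₀ hne
    linear_combination c₂
  rw [Real.sin_add, Real.sin_add, Real.cos_pi_div_four, Real.sin_pi_div_four] at f₁
  rw [Real.sin_sub, Real.sin_sub, Real.cos_pi_div_four, Real.sin_pi_div_four] at f₂
  have hs2 : (√2 : ℝ) ≠ 0 := by positivity
  have g₁ : E * Real.sin a' = Real.sin a := by
    apply mul_left_cancel₀ hs2
    linear_combination f₁ + f₂
  have g₂ : E * Real.cos a' = Real.cos a := by
    apply mul_left_cancel₀ hs2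
    linear_combination f₁ - f₂
  have hE2 : E ^ 2 = 1 := by
    have h1 := Real.sin_sq_add_cos_sq a
    have h2 := Real.sin_sq_add_cos_sq a'
    rw [← g₁, ← g₂] at h1
    linear_combination h1 - E ^ 2 * h2
  have hE1 : E = 1 := by
    have : (E - 1) * (E + 1) = 0 := by linear_combination hE2
    rcases mul_eq_zero.mp this with h1 | h1
    · linarith
    · linarith
  rw [hE1, one_mul] at g₁ g₂
  have hcos : Real.cos (a' - a) = 1 := by
    rw [Real.cos_sub, g₁, g₂]
    have := Real.sin_sq_add_cos_sq a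
    linear_combination this
  obtain ⟨k, hk⟩ := (Real.cos_eq_one_iff _).mp hcos
  have hdiff : ψ Real.pi - ψ (-Real.pi) = 2 * Real.pi * r - 4 * Real.pi * k := by
    rw [ha, ha'] at hk
    linear_combination 2 * hk
  -- sandwich
  set m : ℤ := ⌊(ψ 0 - φ₂ 0) / (2 * Real.pi)⌋ with hm
  have h1 : (m:ℝ) ≤ (ψ 0 - φ₂ 0) / (2 * Real.pi) := Int.floor_le _
  have h2 : (ψ 0 - φ₂ 0) / (2 * Real.pi) < m + 1 := Int.lt_floor_add_one _
  rw [le_div_iff₀ (by positivity)] at h1
  rw [div_lt_iff₀ (by positivity)] at h2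
  have h3 := fun t => le_of_le (s₂.add_int m) sψ (t₀ := 0) (by linarith) t
  have h4 := fun t => lt_of_lt sψ (s₂.add_int (m + 1)) (t₀ := 0) (by push_cast; linarith) t
  have p1 := h3 Real.pi
  have p2 := h4 Real.pi
  have p3 := h3 (-Real.pi)
  have p4 := h4 (-Real.pi)
  rw [e₂] at p1 p2
  rw [e₂'] at p3 p4
  push_cast at p2 p4
  have hk0 : k = 0 := by
    have k1 : (k:ℝ) < 1 := by
      by_contra hcon
      push Not at hcon
      nlinarith
    have k2 : (-1:ℝ) < k := by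
      by_contra hcon
      push Not at hcon
      nlinarith
    have k1' : k < 1 := by exact_mod_cast k1
    have k2' : -1 < k := by exact_mod_cast k2
    omega
  rw [hk0] at hdiff
  have hper := per_of_half sψ (r := r) (by push_cast at hdiff; linarith) 0
  have e0 : ψ 0 = x := fl_zero _ _ _ _
  rw [zero_add, e0] at hper
  exact hper

/-- adjacency heights -/
theorem slice_iff_adj (ε b α : ℝ) (r : ℤ) :
    {b' | HasRot ε b' α r} = {b} ↔ Adj ε b α r := by
  rw [slice_iff]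
  exact ⟨adj_of_id, fun h => id_of_adj h⟩

end Pool.Agent.Work.MP_1ba01c_an
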