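import Mathlib

set_option autoImplicit false

open Set Filter Topology MeasureTheory
open scoped NNReal Nat

namespace Pool.Agent.Work.MP_1ba01c_an

/-- `π J_r(x)` -/
noncomputable def cJ (r : ℕ) (x : ℝ) : ℝ :=
  ∫ t in (0:ℝ)..Real.pi, Real.cos (r * t - x * Real.sin t)

/-- terms of the Bessel series -/
noncomputable def bt (n : ℕ) (x : ℝ) (j : ℕ) : ℝ :=
  (-1) ^ j * (x / 2) ^ (2 * j + n) / (j ! * (j + n)!)

/-! ### the series -/

/-- coefficient of the double series -/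
noncomputable def dc (x : ℝ) (p : ℕ × ℕ) : ℂ :=
  ((-(x / 2) : ℝ) : ℂ) ^ p.1 / (p.1 ! : ℂ) * (((x / 2 : ℝ) : ℂ) ^ p.2 / (p.2 ! : ℂ))

noncomputable def ff (n : ℕ) (x t : ℝ) : ℂ :=
  Complex.exp (((n * t - x * Real.sin t : ℝ) : ℂ) * Complex.I)

lemma dc_norm_summable (x : ℝ) : Summable fun p : ℕ × ℕ => ‖dc x p‖ := by
  have h1 : Summable fun n : ℕ => ‖((-(x / 2) : ℝ) : ℂ) ^ n / (n ! : ℂ)‖ :=
    NormedSpace.norm_expSeries_div_summable (𝔸 := ℂ) _
  have h2 : Summable fun n : ℕ => ‖((x / 2 : ℝ) : ℂ) ^ n / (n ! : ℂ)‖ :=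
    NormedSpace.norm_expSeries_div_summable (𝔸 := ℂ) _
  have := h1.mul_norm h2
  exact this

lemma exp_hasSum (z : ℂ) : HasSum (fun n : ℕ => z ^ n / (n ! : ℂ)) (Complex.exp z) := by
  rw [Complex.exp_eq_exp_ℂ]
  exact NormedSpace.expSeries_div_hasSum_exp z

lemma ff_hasSum (n : ℕ) (x t : ℝ) :
    HasSum (fun p : ℕ × ℕ => dc x p *
      Complex.exp ((((n:ℝ) + p.1 - p.2 : ℝ) : ℂ) * Complex.I * t)) (ff n x t) := by
  set w : ℂ := Complex.exp ((t : ℂ) * Complex.I) with hw
  set w' : ℂ := Complex.exp (-((t : ℂ) * Complex.I)) with hw'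
  have h1 := exp_hasSum (((-(x / 2) : ℝ) : ℂ) * w)
  have h2 := exp_hasSum (((x / 2 : ℝ) : ℂ) * w')
  have n1 : Summable fun n : ℕ => ‖(((-(x / 2) : ℝ) : ℂ) * w) ^ n / (n ! : ℂ)‖ :=
    NormedSpace.norm_expSeries_div_summable (𝔸 := ℂ) _
  have n2 : Summable fun n : ℕ => ‖(((x / 2 : ℝ) : ℂ) * w') ^ n / (n ! : ℂ)‖ :=
    NormedSpace.norm_expSeries_div_summable (𝔸 := ℂ) _
  have hs := summable_mul_of_summable_norm n1 n2
  have h3 := (h1.mul h2 hs).mul_left (Complex.exp ((n : ℂ) * ((t : ℂ) * Complex.I)))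
  have e1 : Complex.exp ((n : ℂ) * ((t : ℂ) * Complex.I)) *
      (Complex.exp (((-(x / 2) : ℝ) : ℂ) * w) * Complex.exp (((x / 2 : ℝ) : ℂ) * w')) =
      ff n x t := by
    unfold ff
    rw [← Complex.exp_add, ← Complex.exp_add]
    congr 1
    have h4 : w - w' = 2 * Complex.I * (Real.sin t : ℂ) := by
      rw [hw, hw', ← neg_mul, Complex.exp_mul_I, Complex.exp_mul_I, Complex.cos_neg,
        Complex.sin_neg]
      push_cast; ring
    push_cast at h4 ⊢
    linear_combination (-(x : ℂ) / 2) * h4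
  rw [e1] at h3
  have e2 : (fun p : ℕ × ℕ => Complex.exp ((n : ℂ) * ((t : ℂ) * Complex.I)) *
      ((((-(x / 2) : ℝ) : ℂ) * w) ^ p.1 / (p.1 ! : ℂ) *
        ((((x / 2 : ℝ) : ℂ) * w') ^ p.2 / (p.2 ! : ℂ)))) = fun p : ℕ × ℕ => dc x p *
      Complex.exp ((((n:ℝ) + p.1 - p.2 : ℝ) : ℂ) * Complex.I * t) := by
    funext p
    unfold dc
    have h5 : w ^ p.1 = Complex.exp ((p.1 : ℂ) * ((t : ℂ) * Complex.I)) := by
      rw [hw, ← Complex.exp_nat_mul]
    have h6 : w' ^ p.2 = Complex.exp ((p.2 : ℂ) * (-((t : ℂ) * Complex.I))) := by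
      rw [hw', ← Complex.exp_nat_mul]
    have h7 : Complex.exp ((((n:ℝ) + p.1 - p.2 : ℝ) : ℂ) * Complex.I * t) =
        Complex.exp ((n : ℂ) * ((t : ℂ) * Complex.I)) *
          (Complex.exp ((p.1 : ℂ) * ((t : ℂ) * Complex.I)) *
            Complex.exp ((p.2 : ℂ) * (-((t : ℂ) * Complex.I)))) := by
      rw [← Complex.exp_add, ← Complex.exp_add]
      congr 1
      push_cast; ring
    rw [h7, mul_pow, mul_pow, h5, h6]
    ring
  rw [e2] at h3
  exact h3

lemma int_exp (m : ℤ) : ∫ t in (-Real.pi)..Real.pi, Complex.exp ((m : ℂ) * Complex.I * t) =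
    if m = 0 then 2 * Real.pi else 0 := by
  split_ifs with h
  · subst h
    simp
    ring
  · have hm : (m : ℂ) * Complex.I ≠ 0 := by
      apply mul_ne_zero _ Complex.I_ne_zero
      exact_mod_cast h
    rw [integral_exp_mul_complex hm]
    have e : (m : ℂ) * Complex.I * (Real.pi : ℂ) =
        (m : ℂ) * Complex.I * ((-Real.pi : ℝ) : ℂ) + m * (2 * Real.pi * Complex.I) := by
      push_cast; ring
    rw [e, Complex.exp_add, Complex.exp_int_mul_two_pi_mul_I, mul_one, sub_self, zero_div]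
    simp

lemma int_ff (n : ℕ) (x : ℝ) : ∫ t in (-Real.pi)..Real.pi, ff n x t = ((2 * cJ n x : ℝ) : ℂ) := by
  have hc : Continuous (ff n x) := by unfold ff; fun_prop
  have h1 : ∫ t in (-Real.pi)..Real.pi, ff n x t =
      (∫ t in (0:ℝ)..Real.pi, ff n x (-t)) + ∫ t in (0:ℝ)..Real.pi, ff n x t := by
    rw [← intervalIntegral.integral_add_adjacent_intervals (b := 0)
      (hc.intervalIntegrable _ _) (hc.intervalIntegrable _ _)]
    congr 1
    have := intervalIntegral.integral_comp_neg (a := 0) (b := Real.pi) (fun t => ff n x t)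
    rw [this, neg_zero]
  rw [h1, ← intervalIntegral.integral_add]
  · unfold cJ
    rw [← intervalIntegral.integral_const_mul, ← intervalIntegral.integral_ofReal]
    apply intervalIntegral.integral_congr
    intro t _
    simp only
    unfold ff
    have e : ((n * -t - x * Real.sin (-t) : ℝ) : ℂ) = -((n * t - x * Real.sin t : ℝ) : ℂ) := by
      rw [Real.sin_neg]; push_cast; ring
    rw [e, neg_mul, ← neg_mul, Complex.exp_mul_I, Complex.exp_mul_I, Complex.cos_neg,
      Complex.sin_neg]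
    push_cast; ring
  · apply Continuous.intervalIntegrable; exact hc.comp continuous_neg
  · exact hc.intervalIntegrable _ _

theorem hasSum_cJ (n : ℕ) (x : ℝ) : HasSum (fun j => Real.pi * bt n x j) (cJ n x) := by
  have h1 : HasSum (fun p : ℕ × ℕ => ∫ t in (-Real.pi)..Real.pi, dc x p *
      Complex.exp ((((n:ℝ) + p.1 - p.2 : ℝ) : ℂ) * Complex.I * t))
      (∫ t in (-Real.pi)..Real.pi, ff n x t) := by
    apply intervalIntegral.hasSum_integral_of_dominated_convergence (fun p _ => ‖dc x p‖)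
    · intro p
      apply Continuous.aestronglyMeasurable
      fun_prop
    · intro p
      filter_upwards with t _
      have : Complex.exp ((((n:ℝ) + p.1 - p.2 : ℝ) : ℂ) * Complex.I * t) =
          Complex.exp (((((n:ℝ) + p.1 - p.2) * t : ℝ) : ℂ) * Complex.I) := by
        congr 1; push_cast; ring
      rw [norm_mul, this, Complex.norm_exp_ofReal_mul_I, mul_one]
    · filter_upwards with t _
      exact dc_norm_summable x
    · exact _root_.intervalIntegrable_const
    · filter_upwards with t _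
      exact ff_hasSum n x t
  rw [int_ff] at h1
  have h2 : (fun p : ℕ × ℕ => ∫ t in (-Real.pi)..Real.pi, dc x p *
      Complex.exp ((((n:ℝ) + p.1 - p.2 : ℝ) : ℂ) * Complex.I * t)) =
      fun p : ℕ × ℕ => dc x p * (if (n:ℤ) + p.1 - p.2 = 0 then 2 * Real.pi else 0) := by
    funext p
    rw [intervalIntegral.integral_const_mul, ← int_exp]
    congr 1
    push_cast
    rfl
  rw [h2] at h1
  -- restrict to the diagonal
  have hinj : Function.Injective (fun j : ℕ => (j, n + j)) := by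
    intro a b hab
    exact (Prod.mk.inj hab).1
  have h3 : HasSum ((fun p : ℕ × ℕ => dc x p *
      (if (n:ℤ) + p.1 - p.2 = 0 then 2 * Real.pi else 0)) ∘ (fun j : ℕ => (j, n + j)))
      ((2 * cJ n x : ℝ) : ℂ) := by
    rw [hinj.hasSum_iff]
    · exact h1
    · rintro ⟨j, l⟩ hjl
      have hne : (n:ℤ) + j - l ≠ 0 := by
        intro h0
        apply hjl
        exact ⟨j, by simp only [Prod.mk.injEq, true_and]; omega⟩
      simp only
      rw [if_neg hne, Complex.ofReal_zero, mul_zero]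
  have h4 : ((fun p : ℕ × ℕ => dc x p *
      (if (n:ℤ) + p.1 - p.2 = 0 then 2 * Real.pi else 0)) ∘ (fun j : ℕ => (j, n + j))) =
      fun j => ((2 * (Real.pi * bt n x j) : ℝ) : ℂ) := by
    funext j
    simp only [Function.comp]
    rw [if_pos (by push_cast; ring)]
    unfold dc bt
    simp only
    rw [show n + j = j + n by ring]
    push_cast
    rw [neg_pow, show 2 * j + n = j + (j + n) by ring, pow_add]
    ring
  rw [h4] at h3
  have h5 := Complex.hasSum_ofReal.mp h3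
  have h6 := h5.mul_left (1 / 2)
  have e1 : (fun j => 1 / 2 * (2 * (Real.pi * bt n x j))) = fun j => Real.pi * bt n x j := by
    funext j; ring
  have e2 : 1 / 2 * (2 * cJ n x) = cJ n x := by ring
  rw [e1, e2] at h6
  exact h6

/-! ### truncation -/

lemma abs_bt (n : ℕ) (x : ℝ) (j : ℕ) :
    |bt n x j| = |x / 2| ^ (2 * j + n) / (j ! * (j + n)!) := by
  unfold bt
  rw [abs_div, abs_mul, abs_pow, abs_pow, abs_neg, abs_one, one_pow, one_mul,
    abs_of_pos (by positivity : (0:ℝ) < (j ! : ℝ) * ((j + n)! : ℝ))]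

lemma abs_bt_succ (n : ℕ) (x : ℝ) (j : ℕ) :
    |bt n x (j + 1)| = |bt n x j| * ((x / 2) ^ 2 / ((j + 1) * (j + n + 1))) := by
  rw [abs_bt, abs_bt, show 2 * (j + 1) + n = (2 * j + n) + 2 by ring, pow_add, sq_abs,
    show j + 1 + n = (j + n) + 1 by ring, Nat.factorial_succ, Nat.factorial_succ]
  push_cast
  field_simp

lemma abs_bt_le {n m : ℕ} {x ρ : ℝ} (hρ : (x / 2) ^ 2 / ((m + 1) * (m + n + 1)) ≤ ρ) (j : ℕ) :
    |bt n x (j + m)| ≤ |bt n x m| * ρ ^ j := by
  have hρ0 : 0 ≤ ρ := le_trans (by positivity) hρ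
  induction j with
  | zero => simp
  | succ j ih =>
    rw [show j + 1 + m = (j + m) + 1 by ring, abs_bt_succ]
    have h1 : (x / 2) ^ 2 / ((((j + m : ℕ) : ℝ) + 1) * (((j + m : ℕ) : ℝ) + n + 1)) ≤ ρ := by
      refine le_trans ?_ hρ
      push_cast
      gcongr <;> linarith [(Nat.cast_nonneg j : (0:ℝ) ≤ j)]
    calc _ ≤ (|bt n x m| * ρ ^ j) * ρ := mul_le_mul ih h1 (by positivity) (by positivity)
      _ = _ := by ring

/-- truncation error -/
theorem cJ_trunc {n m : ℕ} {x ρ T : ℝ} (hρ : (x / 2) ^ 2 / ((m + 1) * (m + n + 1)) ≤ ρ)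
    (hρ1 : ρ < 1) (hT : |bt n x m| / (1 - ρ) ≤ T) :
    |cJ n x - Real.pi * ∑ j ∈ Finset.range m, bt n x j| ≤ Real.pi * T := by
  have hpi := Real.pi_pos
  have hρ0 : 0 ≤ ρ := le_trans (by positivity) hρ
  have h1 := (hasSum_nat_add_iff' m).mpr (hasSum_cJ n x)
  rw [← Finset.mul_sum] at h1
  have hg : Summable fun j : ℕ => Real.pi * (|bt n x m| * ρ ^ j) :=
    ((summable_geometric_of_lt_one hρ0 hρ1).mul_left _).mul_left _
  have h2 : ‖∑' j, Real.pi * bt n x (j + m)‖ ≤ ∑' j : ℕ, Real.pi * (|bt n x m| * ρ ^ j) := by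
    apply tsum_of_norm_bounded hg.hasSum
    intro j
    rw [norm_mul, Real.norm_eq_abs, Real.norm_eq_abs, abs_of_pos hpi]
    exact mul_le_mul_of_nonneg_left (abs_bt_le hρ j) hpi.le
  rw [h1.tsum_eq, Real.norm_eq_abs] at h2
  refine h2.trans ?_
  rw [tsum_mul_left, tsum_mul_left, tsum_geometric_of_lt_one hρ0 hρ1, ← div_eq_mul_inv]
  exact mul_le_mul_of_nonneg_left hT hpi.le

end Pool.Agent.Work.MP_1ba01c_an
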