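import Pool.Agent.Work.MP_1ba01c_an.Bessel

set_option autoImplicit false

open Set Filter Topology MeasureTheory
open scoped NNReal Nat

namespace Pool.Agent.Work.MP_1ba01c_an

/-- the polynomial bounding `J_2(x) / (x/2)^2` from below, `u = (x/2)^2` -/
noncomputable def qp (u : ℝ) : ℝ := 1 / 2 - u / 6 + u ^ 2 / 48 - u ^ 3 / 720 + u ^ 4 / 17280 -
  u ^ 5 / 604800 + u ^ 6 / 29030400 - u ^ 7 / 1828915200 - 11 / 10 * u ^ 8 / 146313216000

lemma qp_large {u : ℝ} (h0 : 0 ≤ u) (h1 : u ≤ 6.5536) : 0.0007 ≤ qp u := by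
  have hb : 0 ≤ 4096 / 625 - u := by norm_num at h1 ⊢; linarith
  have e : qp u - 7 / 10000 = (186003744602203369140625/1267650600228229401496703205376) * (u ^ 0 * ((4096/625) - u) ^ 8) + (405423343181610107421875/475368975085586025561263702016) * (u ^ 1 * ((4096/625) - u) ^ 7) + (2019848167896270751953125/950737950171172051122527404032) * (u ^ 2 * ((4096/625) - u) ^ 6) + (4191358800563812255859375/1426106925256758076683791106048) * (u ^ 3 * ((4096/625) - u) ^ 5) + (41719267373582183837890625/17113283103081096920205493272576) * (u ^ 4 * ((4096/625) - u) ^ 4) + (36302429804145897373046875/29948245430391919610359613227008) * (u ^ 5 * ((4096/625) - u) ^ 3) + (8588310814425163998734375/25669924654621645380308239908864) * (u ^ 6 * ((4096/625) - u) ^ 2) + (224176407136834784486896025/5660218386344072806357966899904512) * (u ^ 7 * ((4096/625) - u) ^ 1) + (528282761720695668569728649/28301091931720364031789834499522560000) * (u ^ 8 * ((4096/625) - u) ^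 0) := by
    unfold qp; ring
  have h2 : 0 ≤ qp u - 7 / 10000 := by rw [e]; positivity
  norm_num; linarith

lemma qp_small {u : ℝ} (h0 : 0 ≤ u) (h1 : u ≤ 0.05) : 0.4 ≤ qp u := by
  have hb : 0 ≤ 1 / 20 - u := by norm_num at h1 ⊢; linarith
  have e : qp u - 2 / 5 = (2560000000) * (u ^ 0 * ((1/20) - u) ^ 8) + (60800000000/3) * (u ^ 1 * ((1/20) - u) ^ 7) + (70188000000) * (u ^ 2 * ((1/20) - u) ^ 6) + (1249991960000/9) * (u ^ 3 * ((1/20) - u) ^ 5) + (4637339400250/27) * (u ^ 4 * ((1/20) - u) ^ 4) + (17125914404665/126) * (u ^ 5 * ((1/20) - u) ^ 3) + (4878555498429121/72576) * (u ^ 6 * ((1/20) - u) ^ 2) + (1736979700535253719/91445760) * (u ^ 7 * ((1/20) - u) ^ 1) + (381714202488731838221/162570240000) * (u ^ 8 * ((1/20) - u) ^ 0) := by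
    unfold qp; ring
  have h2 : 0 ≤ qp u - 2 / 5 := by rw [e]; positivity
  norm_num; linarith

lemma bt_two (x : ℝ) (j : ℕ) :
    bt 2 x j = (x / 2) ^ 2 * ((-1) ^ j * ((x / 2) ^ 2) ^ j / (j ! * (j + 2)!)) := by
  unfold bt
  rw [← pow_mul, show 2 * j + 2 = 2 + 2 * j by ring, pow_add]
  ring

lemma cJ_two_ge {x : ℝ} (h1 : (x / 2) ^ 2 ≤ 6.5536) :
    Real.pi * ((x / 2) ^ 2 * qp ((x / 2) ^ 2)) ≤ cJ 2 x := by
  have hpi := Real.pi_pos
  set u := (x / 2) ^ 2 with hu
  have hu0 : 0 ≤ u := sq_nonneg _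
  have hT : |bt 2 x 8| / (1 - 0.0663) ≤ u * (11 / 10 * u ^ 8 / 146313216000) := by
    have e : |bt 2 x 8| = u * (u ^ 8 / 146313216000) := by
      rw [abs_bt, show 2 * 8 + 2 = 2 * 9 by norm_num, pow_mul, sq_abs, ← hu]
      norm_num [Nat.factorial]
      ring
    rw [e, div_le_iff₀ (by norm_num)]
    have : 0 ≤ u * u ^ 8 := by positivity
    norm_num
    nlinarith
  have h := cJ_trunc (n := 2) (m := 8) (x := x) (ρ := 0.0663)
    (T := u * (11 / 10 * u ^ 8 / 146313216000)) (by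
      rw [← hu]
      rw [div_le_iff₀ (by positivity)]
      norm_num at h1 ⊢
      linarith) (by norm_num) hT
  have e : ∑ j ∈ Finset.range 8, bt 2 x j = u * (1 / 2 - u / 6 + u ^ 2 / 48 - u ^ 3 / 720 +
      u ^ 4 / 17280 - u ^ 5 / 604800 + u ^ 6 / 29030400 - u ^ 7 / 1828915200) := by
    simp only [bt_two, ← hu, Finset.sum_range_succ, Finset.sum_range_zero]
    norm_num [Nat.factorial]
    ring
  rw [e] at h
  have h2 := (abs_le.mp h).1
  have e2 : Real.pi * (u * qp u) = Real.pi * (u * (1 / 2 - u / 6 + u ^ 2 / 48 - u ^ 3 / 720 +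
      u ^ 4 / 17280 - u ^ 5 / 604800 + u ^ 6 / 29030400 - u ^ 7 / 1828915200)) -
      Real.pi * (u * (11 / 10 * u ^ 8 / 146313216000)) := by
    unfold qp; ring
  rw [e2]
  linarith

theorem cJ_two_pos {x : ℝ} (h0 : 0.02 ≤ x) (h1 : x ≤ 5.12) : 0.0001 < cJ 2 x := by
  have hpi := Real.pi_gt_three
  have hu1 : (x / 2) ^ 2 ≤ 6.5536 := by norm_num at h0 h1 ⊢; nlinarith
  have hu0 : 0.0001 ≤ (x / 2) ^ 2 := by norm_num at h0 h1 ⊢; nlinarith
  have h := cJ_two_ge hu1
  set u := (x / 2) ^ 2 with hu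
  refine lt_of_lt_of_le ?_ h
  by_cases hs : u ≤ 0.05
  · have h2 := qp_small (by linarith) hs
    have h3 : 0.0001 * 0.4 ≤ u * qp u := mul_le_mul hu0 h2 (by norm_num) (by linarith)
    nlinarith
  · push Not at hs
    have h2 := qp_large (by linarith) hu1
    have h3 : 0.05 * 0.0007 ≤ u * qp u := mul_le_mul hs.le h2 (by norm_num) (by linarith)
    nlinarith

theorem cJ_small {r : ℕ} {x : ℝ} (h0 : 0 ≤ x) (h1 : x ≤ 0.02) : 0 ≤ cJ r x := by
  have hpi := Real.pi_pos
  have hr : (0:ℝ) ≤ r := by positivity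
  have hb0 : 0 ≤ bt r x 0 := by
    unfold bt
    positivity
  have hx2 : (x / 2) ^ 2 ≤ 0.0001 := by norm_num at h1 ⊢; nlinarith
  have hb1 : |bt r x 1| ≤ bt r x 0 * 0.0001 := by
    have := abs_bt_succ r x 0
    rw [zero_add, abs_of_nonneg hb0] at this
    rw [this]
    apply mul_le_mul_of_nonneg_left _ hb0
    rw [div_le_iff₀ (by positivity)]
    norm_num at hx2 ⊢
    nlinarith
  have h := cJ_trunc (n := r) (m := 1) (x := x) (ρ := 0.5) (T := bt r x 0 * 0.0002) (by
    rw [div_le_iff₀ (by positivity)]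
    push_cast
    norm_num at hx2 ⊢
    nlinarith) (by norm_num) (by
      rw [div_le_iff₀ (by norm_num)]
      norm_num at hb1 ⊢
      linarith)
  rw [Finset.sum_range_one] at h
  have h2 := (abs_le.mp h).1
  have h3 : 0 ≤ Real.pi * bt r x 0 := by positivity
  nlinarith

theorem cJ_one_neg : cJ 1 3.84 < -0.005 := by
  have hpi := Real.pi_gt_three
  have h := cJ_trunc (n := 1) (m := 9) (x := 3.84) (ρ := 0.04) (T := 0.0001) (by norm_num)
    (by norm_num) (by rw [abs_bt]; norm_num [Nat.factorial, abs_of_pos])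
  rw [abs_le] at h
  norm_num [Finset.sum_range_succ, bt, Nat.factorial] at h ⊢
  nlinarith [h.1, h.2]

theorem cJ_three_neg : cJ 3 6.39 < -0.005 := by
  have hpi := Real.pi_gt_three
  have h := cJ_trunc (n := 3) (m := 12) (x := 6.39) (ρ := 0.05) (T := 0.0001) (by norm_num)
    (by norm_num) (by rw [abs_bt]; norm_num [Nat.factorial, abs_of_pos])
  rw [abs_le] at h
  norm_num [Finset.sum_range_succ, bt, Nat.factorial] at h ⊢
  nlinarith [h.1, h.2]

theorem cJ_two_neg : cJ 2 6 < -0.1 := by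
  have hpi := Real.pi_gt_three
  have h := cJ_trunc (n := 2) (m := 12) (x := 6) (ρ := 0.05) (T := 0.0001) (by norm_num)
    (by norm_num) (by rw [abs_bt]; norm_num [Nat.factorial, abs_of_pos])
  rw [abs_le] at h
  norm_num [Finset.sum_range_succ, bt, Nat.factorial] at h ⊢
  nlinarith [h.1, h.2]

theorem cJ_one_pos : 0.1 < cJ 1 2 := by
  have hpi := Real.pi_gt_three
  have h := cJ_trunc (n := 1) (m := 8) (x := 2) (ρ := 0.05) (T := 0.0001) (by norm_num)
    (by norm_num) (by rw [abs_bt]; norm_num [Nat.factorial, abs_of_pos])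
  rw [abs_le] at h
  norm_num [Finset.sum_range_succ, bt, Nat.factorial] at h ⊢
  nlinarith [h.1, h.2]

theorem cJ_three_pos : 0.1 < cJ 3 3 := by
  have hpi := Real.pi_gt_three
  have h := cJ_trunc (n := 3) (m := 8) (x := 3) (ρ := 0.05) (T := 0.0001) (by norm_num)
    (by norm_num) (by rw [abs_bt]; norm_num [Nat.factorial, abs_of_pos])
  rw [abs_le] at h
  norm_num [Finset.sum_range_succ, bt, Nat.factorial] at h ⊢
  nlinarith [h.1, h.2]

end Pool.Agent.Work.MP_1ba01c_an
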