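import Pool.Agent.Work.MP_1ba01c_an.Pert

set_option autoImplicit false

open Set Filter Topology MeasureTheory
open scoped NNReal

namespace Pool.Agent.Work.MP_1ba01c_an

lemma taylor_sin (p h : ℝ) (hh : |h| ≤ 1) :
    Real.sin p - h * Real.cos p - h ^ 2 ≤ Real.sin (p - h) := by
  have h1 : |Real.cos h - 1| ≤ h ^ 2 / 2 := by
    rw [abs_le]
    have h2 := Real.one_sub_sq_div_two_le_cos (x := h)
    have h3 := Real.cos_le_one h
    constructor
    · linarith
    · nlinarith [sq_nonneg h]
  have h2 : |Real.sin h - h| ≤ h ^ 2 / 2 := by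
    have h3 := Real.sin_bound hh
    have h4 : |h| ^ 5 ≤ |h| ^ 2 := pow_le_pow_of_le_one (abs_nonneg h) hh (by norm_num)
    have h5 : |h| ^ 3 ≤ |h| ^ 2 := pow_le_pow_of_le_one (abs_nonneg h) hh (by norm_num)
    have h6 : |h ^ 3 / 6| = |h| ^ 3 / 6 := by
      rw [abs_div, abs_pow]; norm_num
    have h7 := abs_sub_le (Real.sin h - h) (-(h ^ 3 / 6)) 0
    have h8 : Real.sin h - h - -(h ^ 3 / 6) = Real.sin h - (h - h ^ 3 / 6) := by ring
    rw [h8, sub_zero, sub_zero, abs_neg, h6] at h7
    rw [sq_abs] at h4 h5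
    have h9 := sq_nonneg h
    linarith
  rw [Real.sin_sub]
  have h3 := Real.abs_sin_le_one p
  have h4 := Real.abs_cos_le_one p
  have e : Real.sin p * Real.cos h - Real.cos p * Real.sin h =
      Real.sin p - h * Real.cos p + (Real.sin p * (Real.cos h - 1) -
        Real.cos p * (Real.sin h - h)) := by ring
  rw [e]
  have h5 : |Real.sin p * (Real.cos h - 1)| ≤ h ^ 2 / 2 := by
    rw [abs_mul]
    calc |Real.sin p| * |Real.cos h - 1| ≤ 1 * (h ^ 2 / 2) :=
          mul_le_mul h3 h1 (abs_nonneg _) (by norm_num)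
      _ = h ^ 2 / 2 := one_mul _
  have h6 : |Real.cos p * (Real.sin h - h)| ≤ h ^ 2 / 2 := by
    rw [abs_mul]
    calc |Real.cos p| * |Real.sin h - h| ≤ 1 * (h ^ 2 / 2) :=
          mul_le_mul h4 h2 (abs_nonneg _) (by norm_num)
      _ = h ^ 2 / 2 := one_mul _
  have h7 := neg_abs_le (Real.sin p * (Real.cos h - 1))
  have h8 := le_abs_self (Real.cos p * (Real.sin h - h))
  linarith

lemma int_sin_sq {r : ℕ} (hr : 1 ≤ r) :
    ∫ s in (0:ℝ)..Real.pi, Real.sin (r * s) ^ 2 = Real.pi / 2 := by
  have hr' : (r:ℝ) ≠ 0 := by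
    have : (1:ℝ) ≤ r := by exact_mod_cast hr
    linarith
  have hF : ∀ s : ℝ, HasDerivAt (fun s : ℝ => s / 2 - Real.sin (2 * (r * s)) / (4 * r))
      (Real.sin (r * s) ^ 2) s := by
    intro s
    have h1 : HasDerivAt (fun s : ℝ => 2 * ((r:ℝ) * s)) (2 * r) s := by
      have := ((hasDerivAt_id s).const_mul (r:ℝ)).const_mul 2
      simpa using this
    have h2 := ((hasDerivAt_id s).div_const 2).sub ((h1.sin).div_const (4 * r))
    refine h2.congr_deriv ?_
    rw [Real.cos_two_mul, Real.sin_sq]
    field_simp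
    ring
  rw [intervalIntegral.integral_eq_sub_of_hasDerivAt (fun s _ => hF s) (by
    apply Continuous.intervalIntegrable; fun_prop)]
  have h1 : Real.sin (2 * ((r:ℝ) * Real.pi)) = 0 := by
    have := Real.sin_nat_mul_pi (2 * r)
    rw [← this]; congr 1; push_cast; ring
  rw [h1]; simp

lemma int_cos_mul {r : ℕ} (hr : 1 ≤ r) (t : ℝ) :
    ∫ s in (0:ℝ)..t, Real.cos (r * s) = Real.sin (r * t) / r := by
  have hr' : (r:ℝ) ≠ 0 := by
    have : (1:ℝ) ≤ r := by exact_mod_cast hr
    linarith
  have hF : ∀ s : ℝ, HasDerivAt (fun s : ℝ => Real.sin (r * s) / r)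
      (Real.cos (r * s)) s := by
    intro s
    have h1 : HasDerivAt (fun s : ℝ => (r:ℝ) * s) r s := by
      have := (hasDerivAt_id s).const_mul (r:ℝ)
      simpa using this
    have h2 := (h1.sin).div_const (r:ℝ)
    refine h2.congr_deriv ?_
    field_simp
  rw [intervalIntegral.integral_eq_sub_of_hasDerivAt (fun s _ => hF s) (by
    apply Continuous.intervalIntegrable; fun_prop)]
  simp

/-- exclusion of small heights -/
theorem small_exclude {ε α x : ℝ} {r : ℕ} (hε : 0 < ε) (hε1 : ε ≤ 0.01) (hα0 : 0 ≤ α)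
    (hα : α ≤ 0.02) (hr : 1 ≤ r) (hr3 : r ≤ 3) (hx : Real.cos x = 0)
    (hK : 0 ≤ ∫ s in (0:ℝ)..Real.pi, Real.sin (x + r * s + α * Real.sin s)) :
    fl ε r α x Real.pi ≠ x + Real.pi * r := by
  intro heq
  have hpi := Real.pi_pos
  have hpi3 := Real.pi_gt_three
  have hpi4 : Real.pi < 3.15 := Real.pi_lt_d2
  have hr' : (1:ℝ) ≤ r := by exact_mod_cast hr
  have hr3' : (r:ℝ) ≤ 3 := by exact_mod_cast hr3
  set φ := fl ε r α x with hφ
  have hs : IsSol ε r α φ := fl_sol _ _ _ _
  have h0 : φ 0 = x := fl_zero _ _ _ _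
  have hφc := hs.continuous
  have hform := sol_formula hs
  have hz : ∫ s in (0:ℝ)..Real.pi, Real.sin (φ s) = 0 := by
    have h1 := hform Real.pi
    rw [heq, h0, Real.sin_pi, mul_zero, add_zero] at h1
    have h2 : ε * ∫ s in (0:ℝ)..Real.pi, Real.sin (φ s) = 0 := by linarith
    exact (mul_eq_zero.mp h2).resolve_left hε.ne'
  have hsx : Real.sin x ^ 2 = 1 := by
    have := Real.sin_sq_add_cos_sq x
    rw [hx] at this
    linarith
  -- pointwise estimate
  have key : ∀ s ∈ Icc (0:ℝ) Real.pi, Real.sin (x + r * s + α * Real.sin s) +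
      ε * (Real.sin (r * s) ^ 2 / r) - 2 * ε * α * s - 3 / 2 * ε ^ 2 * s ^ 2 ≤
        Real.sin (φ s) := by
    intro s hs'
    obtain ⟨hs0, hspi⟩ := hs'
    set ψ := ∫ u in (0:ℝ)..s, Real.sin (φ u) with hψ
    have h1 : φ s = (x + r * s + α * Real.sin s) - ε * ψ := by
      rw [hform s, h0]
    have hψs : |ψ| ≤ s := abs_int_sin_le φ hs0
    have hh : |ε * ψ| ≤ ε * s := by
      rw [abs_mul, abs_of_pos hε]; exact mul_le_mul_of_nonneg_left hψs hε.le
    have hh1 : |ε * ψ| ≤ 1 := by nlinarith
    have h2 := taylor_sin (x + r * s + α * Real.sin s) (ε * ψ) hh1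
    rw [← h1] at h2
    have h3 : (ε * ψ) ^ 2 ≤ ε ^ 2 * s ^ 2 := by
      rw [← sq_abs, ← mul_pow]
      exact pow_le_pow_left₀ (abs_nonneg _) hh 2
    -- replace ψ by the integral along the unperturbed solution
    set g := ∫ u in (0:ℝ)..s, Real.sin (x + r * u + α * Real.sin u) with hg
    have h4 : |ψ - g| ≤ ε * s ^ 2 / 2 := by
      rw [hψ, hg, ← intervalIntegral.integral_sub]
      · refine (intervalIntegral.abs_integral_le_integral_abs hs0).trans ?_
        have h5 : ∫ u in (0:ℝ)..s, |Real.sin (φ u) - Real.sin (x + r * u + α * Real.sin u)| ≤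
            ∫ u in (0:ℝ)..s, ε * u := by
          apply intervalIntegral.integral_mono_on hs0
          · apply Continuous.intervalIntegrable; fun_prop
          · apply Continuous.intervalIntegrable; fun_prop
          · intro u hu
            refine (abs_sin_sub_le _ _).trans ?_
            rw [hform u, h0]
            have e : x + r * u + α * Real.sin u - ε * (∫ v in (0:ℝ)..u, Real.sin (φ v)) -
              (x + r * u + α * Real.sin u) = -(ε * (∫ v in (0:ℝ)..u, Real.sin (φ v))) := by ring
            rw [e, abs_neg, abs_mul, abs_of_pos hε]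
            exact mul_le_mul_of_nonneg_left (abs_int_sin_le φ hu.1) hε.le
        refine h5.trans (le_of_eq ?_)
        rw [intervalIntegral.integral_const_mul, integral_id]; ring
      · apply Continuous.intervalIntegrable; fun_prop
      · apply Continuous.intervalIntegrable; fun_prop
    set Θ := (r:ℝ) * s + α * Real.sin s with hΘ
    set J := ∫ u in (0:ℝ)..s, Real.cos (r * u + α * Real.sin u) with hJ
    have h5 : g = Real.sin x * J := by
      rw [hg, hJ, ← intervalIntegral.integral_const_mul]
      apply intervalIntegral.integral_congr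
      intro u _
      simp only
      rw [add_assoc, Real.sin_add, hx]; ring
    have h6 : Real.cos (x + r * s + α * Real.sin s) = -(Real.sin x * Real.sin Θ) := by
      rw [add_assoc, Real.cos_add, hx]; ring
    have h7 : |J - Real.sin (r * s) / r| ≤ α * s := by
      rw [hJ, ← int_cos_mul hr, ← intervalIntegral.integral_sub]
      · have h8 := intervalIntegral.norm_integral_le_of_norm_le_const (a := 0) (b := s) (C := α)
          (f := fun u => Real.cos (r * u + α * Real.sin u) - Real.cos (r * u)) (fun u _ => by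
            rw [Real.norm_eq_abs]
            refine (abs_cos_sub_le _ _).trans ?_
            rw [add_sub_cancel_left, abs_mul, abs_of_nonneg hα0]
            exact mul_le_of_le_one_right hα0 (Real.abs_sin_le_one u))
        rw [Real.norm_eq_abs, sub_zero, abs_of_nonneg hs0] at h8
        exact h8
      · apply Continuous.intervalIntegrable; fun_prop
      · apply Continuous.intervalIntegrable; fun_prop
    have h8 : |Real.sin Θ - Real.sin (r * s)| ≤ α := by
      refine (abs_sin_sub_le _ _).trans ?_
      rw [hΘ, add_sub_cancel_left, abs_mul, abs_of_nonneg hα0]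
      exact mul_le_of_le_one_right hα0 (Real.abs_sin_le_one s)
    have h9 : |J| ≤ s := by
      have h8 := intervalIntegral.norm_integral_le_of_norm_le_const (a := 0) (b := s) (C := 1)
        (f := fun u => Real.cos (r * u + α * Real.sin u)) (fun u _ => by
          rw [Real.norm_eq_abs]; exact Real.abs_cos_le_one _)
      rw [Real.norm_eq_abs, one_mul, sub_zero, abs_of_nonneg hs0] at h8
      exact h8
    have h10 : Real.sin (r * s) ^ 2 / r - 2 * α * s ≤ Real.sin Θ * J := by
      have e : Real.sin Θ * J = Real.sin (r * s) ^ 2 / r +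
          ((Real.sin Θ - Real.sin (r * s)) * J +
            Real.sin (r * s) * (J - Real.sin (r * s) / r)) := by ring
      rw [e]
      have a1 : |(Real.sin Θ - Real.sin (r * s)) * J| ≤ α * s := by
        rw [abs_mul]; exact mul_le_mul h8 h9 (abs_nonneg _) hα0
      have a2 : |Real.sin (r * s) * (J - Real.sin (r * s) / r)| ≤ 1 * (α * s) := by
        rw [abs_mul]; exact mul_le_mul (Real.abs_sin_le_one _) h7 (abs_nonneg _) (by norm_num)
      have a3 := neg_abs_le ((Real.sin Θ - Real.sin (r * s)) * J)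
      have a4 := neg_abs_le (Real.sin (r * s) * (J - Real.sin (r * s) / r))
      linarith
    -- the term `ε ψ cos p`
    have h11 : ε * ψ * Real.cos (x + r * s + α * Real.sin s) ≤
        -(ε * (Real.sin Θ * J)) + ε ^ 2 * s ^ 2 / 2 := by
      have e : ε * ψ * Real.cos (x + r * s + α * Real.sin s) =
          -(ε * (Real.sin Θ * J)) * Real.sin x ^ 2 +
            ε * ((ψ - g) * Real.cos (x + r * s + α * Real.sin s)) := by
        rw [h6, h5]; ring
      rw [e, hsx, mul_one]
      have a1 : |(ψ - g) * Real.cos (x + r * s + α * Real.sin s)| ≤ (ε * s ^ 2 / 2) * 1 := by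
        rw [abs_mul]
        exact mul_le_mul h4 (Real.abs_cos_le_one _) (abs_nonneg _) (by positivity)
      have a2 := le_abs_self ((ψ - g) * Real.cos (x + r * s + α * Real.sin s))
      have a3 := mul_le_mul_of_nonneg_left (a2.trans a1) hε.le
      linarith
    have h12 := mul_le_mul_of_nonneg_left h10 hε.le
    linarith
  -- integrate
  have hint : ∫ s in (0:ℝ)..Real.pi, (Real.sin (x + r * s + α * Real.sin s) +
      ε * (Real.sin (r * s) ^ 2 / r) - 2 * ε * α * s - 3 / 2 * ε ^ 2 * s ^ 2) ≤
        ∫ s in (0:ℝ)..Real.pi, Real.sin (φ s) := by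
    apply intervalIntegral.integral_mono_on hpi.le
    · apply Continuous.intervalIntegrable; fun_prop
    · apply Continuous.intervalIntegrable; fun_prop
    · exact key
  rw [hz, intervalIntegral.integral_sub, intervalIntegral.integral_sub,
    intervalIntegral.integral_add, intervalIntegral.integral_const_mul,
    intervalIntegral.integral_const_mul, intervalIntegral.integral_const_mul,
    intervalIntegral.integral_div, int_sin_sq hr, integral_id, integral_pow] at hint
  · have h1 : Real.pi / 6 ≤ Real.pi / 2 / r := by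
      rw [le_div_iff₀ (by linarith)]
      nlinarith
    have h2 := mul_le_mul_of_nonneg_left h1 hε.le
    have h3 : ε * (α * Real.pi ^ 2) ≤ ε * (0.02 * Real.pi ^ 2) := by gcongr
    have h4 : ε ^ 2 * Real.pi ^ 3 ≤ ε * (0.01 * Real.pi ^ 3) := by
      rw [pow_two, mul_assoc]
      gcongr
    have h5 : 0 < Real.pi / 6 - 0.02 * Real.pi ^ 2 - 0.01 * Real.pi ^ 3 / 2 := by
      have : 0 < Real.pi * (1 / 6 - 0.02 * Real.pi - 0.005 * Real.pi ^ 2) := by
        apply mul_pos hpi
        nlinarith
      linarith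
    have h6 := mul_pos hε h5
    norm_num at hint
    linarith
  all_goals
    apply Continuous.intervalIntegrable; fun_prop

end Pool.Agent.Work.MP_1ba01c_an
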