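import Pool.Agent.Work.MP_1ba01c_an.Integral
import Pool.Agent.Work.MP_1ba01c_an.Small
import Pool.Agent.Work.MP_1ba01c_an.BesselNum

set_option autoImplicit false

open Set Filter Topology MeasureTheory

namespace Pool.Agent.Work.MP_1ba01c_an

variable {ε b α : ℝ}

lemma Cr_eq (r : ℕ) (α : ℝ) : Cr r α = (-1) ^ r * cJ r α := by
  unfold Cr cJ
  have h := intervalIntegral.integral_comp_sub_left (a := 0) (b := Real.pi)
    (fun s => Real.cos (r * s + α * Real.sin s)) Real.pi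
  rw [sub_self, sub_zero] at h
  rw [← h, ← intervalIntegral.integral_const_mul]
  apply intervalIntegral.integral_congr
  intro s _
  simp only
  rw [Real.sin_pi_sub, show (r:ℝ) * (Real.pi - s) + α * Real.sin s =
    r * Real.pi - (r * s - α * Real.sin s) by ring, Real.cos_sub, Real.cos_nat_mul_pi,
    Real.sin_nat_mul_pi, zero_mul, add_zero]

/-- difference of the two critical parameters -/
noncomputable def DD (ε : ℝ) (r : ℕ) (α : ℝ) : ℝ :=
  bs ε α (Real.pi / 2) r - bs ε α (-(Real.pi / 2)) r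

lemma DD_continuous (hε : 0 ≤ ε) (r : ℕ) : Continuous (DD ε r) := by
  have h : ∀ x : ℝ, Continuous (fun α => bs ε α x (r:ℤ)) := by
    intro x
    have : LipschitzWith 1 (fun α => bs ε α x (r:ℤ)) := by
      apply LipschitzWith.of_dist_le_mul
      intro α α'
      rw [Real.dist_eq, Real.dist_eq, NNReal.coe_one, one_mul]
      exact bs_lip hε α' α x r
    exact this.continuous
  exact (h _).sub (h _)

/-- positive heights: the abscissa is `r` -/
lemma adj_b_eq (hε0 : 0 ≤ ε) (hε : ε < 1) (hα : 0 < α) {r : ℤ} (h : Adj ε b α r) : b = r := by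
  obtain ⟨k, hk⟩ := adj_integer hα h
  have h1 := b_near hε0 (fl_sol ε b α (Real.pi / 2)) (fl_zero _ _ _ _) h.1
  rw [hk] at h1
  have h2 : |(2 * k : ℝ)| < 1 := by
    have : (r:ℝ) + 2 * k - r = 2 * k := by ring
    rw [this] at h1
    linarith
  rw [abs_lt] at h2
  have h3 : k = 0 := by
    have h4 : (k:ℝ) < 1 := by linarith
    have h5 : (-1:ℝ) < k := by linarith
    have h6 : k < 1 := by exact_mod_cast h4
    have h7 : -1 < k := by exact_mod_cast h5
    omega
  rw [hk, h3]; simp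

lemma adj_iff_DD (hε0 : 0 ≤ ε) (hε : ε < 1) (hα : 0 < α) {r : ℕ} :
    Adj ε r α r ↔ DD ε r α = 0 := by
  constructor
  · intro h
    obtain ⟨h1, h2⟩ := (adj_iff hε0 _ _ _).mp h
    unfold DD
    rw [← h1, ← h2, sub_self]
  · intro h
    have h1 : Adj ε (bs ε α (Real.pi / 2) r) α r := by
      rw [adj_iff hε0]
      refine ⟨rfl, ?_⟩
      unfold DD at h
      linarith
    have h2 := adj_b_eq hε0 hε hα h1
    rw [h2] at h1
    exact_mod_cast h1

lemma DD_bound (hε : 0 ≤ ε) (r : ℕ) (α : ℝ) :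
    |Real.pi * ((-1) ^ r * DD ε r α) - 2 * ε * cJ r α| ≤ 2 * (ε ^ 2 * Real.pi ^ 2) := by
  have h := diff_bs hε α r
  rw [Cr_eq] at h
  have e : Real.pi * ((-1) ^ r * DD ε r α) - 2 * ε * cJ r α =
      (-1) ^ r * (Real.pi * (bs ε α (Real.pi / 2) r - bs ε α (-(Real.pi / 2)) r) -
        2 * ε * ((-1) ^ r * cJ r α)) := by
    have h1 : ((-1:ℝ) ^ r) * (-1) ^ r = 1 := by
      rw [← mul_pow]; norm_num
    unfold DD
    linear_combination (2 * ε * cJ r α) * h1
  rw [e, abs_mul, abs_pow, abs_neg, abs_one, one_pow, one_mul]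
  exact h

lemma eps_bound (hε0 : 0 < ε) (hε : ε ≤ 0.00001) :
    2 * (ε ^ 2 * Real.pi ^ 2) < 2 * ε * 0.0001 := by
  have hpi := Real.pi_pos
  have hpi4 : Real.pi < 3.15 := Real.pi_lt_d2
  have h1 : Real.pi ^ 2 < 9.93 := by nlinarith
  have h2 : ε * Real.pi ^ 2 < 0.0001 := by
    calc ε * Real.pi ^ 2 ≤ 0.00001 * Real.pi ^ 2 := by gcongr
      _ < 0.00001 * 9.93 := by gcongr
      _ < 0.0001 := by norm_num
  nlinarith

/-- sign of the difference -/
lemma DD_pos (hε0 : 0 < ε) (hε : ε ≤ 0.00001) {r : ℕ} (h : 0.0001 ≤ cJ r α) :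
    0 < (-1) ^ r * DD ε r α := by
  have hpi := Real.pi_pos
  have h1 := DD_bound hε0.le r α
  have h2 := eps_bound hε0 hε
  rw [abs_le] at h1
  have h3 : 2 * ε * 0.0001 ≤ 2 * ε * cJ r α := by gcongr
  have h4 : 0 < Real.pi * ((-1) ^ r * DD ε r α) := by linarith [h1.1]
  exact (mul_pos_iff_of_pos_left hpi).mp h4

lemma DD_neg (hε0 : 0 < ε) (hε : ε ≤ 0.00001) {r : ℕ} (h : cJ r α ≤ -0.0001) :
    (-1) ^ r * DD ε r α < 0 := by
  have hpi := Real.pi_pos
  have h1 := DD_bound hε0.le r α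
  have h2 := eps_bound hε0 hε
  rw [abs_le] at h1
  have h3 : 2 * ε * cJ r α ≤ 2 * ε * (-0.0001) := by gcongr
  have h4 : Real.pi * ((-1) ^ r * DD ε r α) < 0 := by linarith [h1.2]
  by_contra hcon
  push Not at hcon
  have := mul_nonneg hpi.le hcon
  linarith

/-- no adjacency at a height where `cJ r` is positive -/
lemma no_adj_of_pos (hε0 : 0 < ε) (hε : ε ≤ 0.00001) {r : ℕ} (hα : 0 < α)
    (h : 0.0001 ≤ cJ r α) : ¬ Adj ε r α r := by
  intro hA
  have h1 := (adj_iff_DD hε0.le (by linarith) hα).mp hA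
  have h2 := DD_pos hε0 hε h
  rw [h1, mul_zero] at h2
  exact lt_irrefl _ h2

/-- no adjacency at small height -/
lemma no_adj_small (hε0 : 0 < ε) (hε : ε ≤ 0.00001) {r : ℕ} (hr : 1 ≤ r) (hr3 : r ≤ 3)
    (hα : 0 < α) (hα1 : α ≤ 0.02) : ¬ Adj ε r α r := by
  intro hA
  have hJ := cJ_small (r := r) hα.le hα1
  have hCr := Cr_eq r α
  rcases Nat.even_or_odd r with hev | hodd
  · rw [hev.neg_one_pow, one_mul] at hCr
    have h1 := small_exclude (x := Real.pi / 2) hε0 (by linarith) hα.le hα1 hr hr3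
      Real.cos_pi_div_two ?_
    · apply h1
      have := hA.1
      push_cast at this
      exact this
    · have e1 : ∫ s in (0:ℝ)..Real.pi, Real.sin (Real.pi / 2 + r * s + α * Real.sin s) =
          Cr r α := by
        unfold Cr
        apply intervalIntegral.integral_congr
        intro s _
        simp only
        rw [add_assoc, add_comm (Real.pi / 2), Real.sin_add_pi_div_two]
      rw [e1, hCr]; exact hJ
  · rw [hodd.neg_one_pow, neg_one_mul] at hCr
    have h1 := small_exclude (x := -(Real.pi / 2)) hε0 (by linarith) hα.le hα1 hr hr3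
      (by rw [Real.cos_neg, Real.cos_pi_div_two]) ?_
    · apply h1
      have := hA.2
      push_cast at this
      exact this
    · have e1 : ∫ s in (0:ℝ)..Real.pi, Real.sin (-(Real.pi / 2) + r * s + α * Real.sin s) =
          -Cr r α := by
        unfold Cr
        rw [← intervalIntegral.integral_neg]
        apply intervalIntegral.integral_congr
        intro s _
        simp only
        rw [add_assoc, add_comm (-(Real.pi / 2)), ← sub_eq_add_neg, Real.sin_sub_pi_div_two]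
      rw [e1, hCr, neg_neg]; exact hJ

/-- the first adjacency of `L_r` with positive height -/
theorem first_adj (hε0 : 0 < ε) (hε : ε ≤ 0.00001) {r : ℕ} (hr : 1 ≤ r) (hr3 : r ≤ 3)
    {u v : ℝ} (hu : 0.02 < u) (huv : u < v) (hJu : 0.0001 < cJ r u) (hJv : cJ r v < -0.005) :
    ∃ a, 0.02 ≤ a ∧ a ≤ v ∧ Adj ε r a r ∧ ∀ a', 0 < a' → a' < a → ¬ Adj ε r a' r := by
  have hc := DD_continuous hε0.le r
  have hcg : Continuous (fun α => (-1) ^ r * DD ε r α) := continuous_const.mul hc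
  have h1 := DD_pos hε0 hε (r := r) (α := u) (by linarith)
  have h2 := DD_neg hε0 hε (r := r) (α := v) (by linarith)
  have hone : ((-1:ℝ) ^ r) ≠ 0 := pow_ne_zero _ (by norm_num)
  obtain ⟨z, hz, hz0⟩ : ∃ z ∈ Icc u v, (-1) ^ r * DD ε r z = 0 := by
    have := intermediate_value_Icc' huv.le hcg.continuousOn
    exact this ⟨h2.le, h1.le⟩
  set Z : Set ℝ := Icc 0.02 v ∩ (DD ε r) ⁻¹' {0} with hZ
  have hZc : IsCompact Z := isCompact_Icc.inter_right (isClosed_singleton.preimage hc)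
  have hZn : Z.Nonempty := by
    refine ⟨z, ⟨by linarith [hz.1], hz.2⟩, ?_⟩
    rcases mul_eq_zero.mp hz0 with h | h
    · exact absurd h hone
    · exact h
  obtain ⟨a, haZ, hmin⟩ := hZc.exists_isLeast hZn
  have ha0 : 0 < a := by have := haZ.1.1; linarith
  refine ⟨a, haZ.1.1, haZ.1.2, (adj_iff_DD hε0.le (by linarith) ha0).mpr haZ.2, ?_⟩
  intro a' ha' haa' hA
  by_cases hs : a' ≤ 0.02
  · exact no_adj_small hε0 hε hr hr3 ha' hs hA
  · push Not at hs
    have h3 := (adj_iff_DD hε0.le (by linarith) ha').mp hA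
    have h4 : a' ∈ Z := ⟨⟨hs.le, by linarith [haZ.1.2]⟩, h3⟩
    have h5 := hmin h4
    linarith

theorem three_heights (hε0 : 0 < ε) (hε : ε ≤ 0.00001) :
    ∃ a₁ a₂ a₃ : ℝ, 0 < a₁ ∧ 0 < a₂ ∧ 0 < a₃ ∧ a₁ ≤ 3.84 ∧ 5.12 < a₂ ∧ a₃ ≤ 6.39 ∧
      (Adj ε 1 a₁ 1 ∧ ∀ a', 0 < a' → a' < a₁ → ∀ b, ¬ Adj ε b a' 1) ∧
      (Adj ε 2 a₂ 2 ∧ ∀ a', 0 < a' → a' < a₂ → ∀ b, ¬ Adj ε b a' 2) ∧
      (Adj ε 3 a₃ 3 ∧ ∀ a', 0 < a' → a' < a₃ → ∀ b, ¬ Adj ε b a' 3) := by
  obtain ⟨a₁, h11, h12, h13, h14⟩ := first_adj hε0 hε (r := 1) (by norm_num) (by norm_num)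
    (u := 2) (v := 3.84) (by norm_num) (by norm_num) (by linarith [cJ_one_pos]) cJ_one_neg
  obtain ⟨a₃, h31, h32, h33, h34⟩ := first_adj hε0 hε (r := 3) (by norm_num) (by norm_num)
    (u := 3) (v := 6.39) (by norm_num) (by norm_num) (by linarith [cJ_three_pos]) cJ_three_neg
  have hJ2 : 0.0001 < cJ 2 3 := cJ_two_pos (by norm_num) (by norm_num)
  obtain ⟨a₂, h21, h22, h23, h24⟩ := first_adj hε0 hε (r := 2) (by norm_num) (by norm_num)
    (u := 3) (v := 6) (by norm_num) (by norm_num) hJ2 (by linarith [cJ_two_neg])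
  have h25 : 5.12 < a₂ := by
    by_contra hcon
    push Not at hcon
    exact no_adj_of_pos hε0 hε (by linarith) (cJ_two_pos h21 hcon).le h23
  refine ⟨a₁, a₂, a₃, by linarith, by linarith, by linarith, h12, h25, h32, ⟨?_, ?_⟩, ⟨?_, ?_⟩,
    ⟨?_, ?_⟩⟩
  · simpa using h13
  · intro a' h1 h2 b hA
    have hb := adj_b_eq hε0.le (by linarith) h1 hA
    rw [hb] at hA
    exact h14 a' h1 h2 (by simpa using hA)
  · simpa using h23
  · intro a' h1 h2 b hA
    have hb := adj_b_eq hε0.le (by linarith) h1 hA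
    rw [hb] at hA
    exact h24 a' h1 h2 (by simpa using hA)
  · simpa using h33
  · intro a' h1 h2 b hA
    have hb := adj_b_eq hε0.le (by linarith) h1 hA
    rw [hb] at hA
    exact h34 a' h1 h2 (by simpa using hA)

end Pool.Agent.Work.MP_1ba01c_an
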