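import Mathlib

set_option autoImplicit false

open Set Filter Topology MeasureTheory
open scoped NNReal

namespace Pool.Agent.Work.MP_1ba01c_an

/-! ### entire solutions of linear systems -/

/-- the primitive of an entire function vanishing at `z₀` -/
lemma exists_prim {f : ℂ → ℂ} (hf : Differentiable ℂ f) (z₀ : ℂ) :
    ∃ F : ℂ → ℂ, F z₀ = 0 ∧ ∀ z, HasDerivAt F (f z) z := by
  obtain ⟨g, h1, h2⟩ := hf.isExactOn_univ.with_val_at z₀ 0
  exact ⟨g, h1, fun z => h2 z (mem_univ z)⟩

/-- growth of a primitive -/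
lemma prim_bound {f F : ℂ → ℂ} {z₀ : ℂ} (h0 : F z₀ = 0) (hF : ∀ z, HasDerivAt F (f z) z)
    {R C M : ℝ} (hC : 0 < C) (hM : 0 ≤ M)
    (hf : ∀ z, ‖z - z₀‖ ≤ R → ‖f z‖ ≤ C * (M * Real.exp (2 * C * ‖z - z₀‖))) {z : ℂ}
    (hz : ‖z - z₀‖ ≤ R) : ‖F z‖ ≤ M / 2 * Real.exp (2 * C * ‖z - z₀‖) := by
  set ρ := ‖z - z₀‖ with hρ
  have hρ0 : 0 ≤ ρ := norm_nonneg _
  have hline : ∀ t : ℝ, HasDerivAt (fun t : ℝ => F (z₀ + t * (z - z₀)))
      (f (z₀ + t * (z - z₀)) * (z - z₀)) t := by
    intro t
    have h1 : HasDerivAt (fun t : ℂ => z₀ + t * (z - z₀)) (z - z₀) (t : ℂ) := by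
      simpa using ((hasDerivAt_id (t : ℂ)).mul_const (z - z₀)).const_add z₀
    have h2 := (hF (z₀ + t * (z - z₀))).comp (t : ℂ) h1
    exact h2.comp_ofReal
  have hB : ∀ t : ℝ, HasDerivAt (fun t : ℝ => M / 2 * Real.exp (2 * C * ρ * t))
      (M / 2 * (Real.exp (2 * C * ρ * t) * (2 * C * ρ))) t := by
    intro t
    have h1 : HasDerivAt (fun t : ℝ => 2 * C * ρ * t) (2 * C * ρ) t := by
      simpa using (hasDerivAt_id t).const_mul (2 * C * ρ)
    exact (h1.exp).const_mul (M / 2)
  have key := image_norm_le_of_norm_deriv_right_le_deriv_boundary (a := 0) (b := 1)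
    (f := fun t : ℝ => F (z₀ + t * (z - z₀))) (f' := fun t : ℝ => f (z₀ + t * (z - z₀)) * (z - z₀))
    (B := fun t : ℝ => M / 2 * Real.exp (2 * C * ρ * t))
    (B' := fun t : ℝ => M / 2 * (Real.exp (2 * C * ρ * t) * (2 * C * ρ)))
    (fun t _ => (hline t).continuousAt.continuousWithinAt)
    (fun t _ => (hline t).hasDerivWithinAt)
    (by simp [h0]; positivity) hB (by
      intro t ht
      have e1 : z₀ + (t : ℂ) * (z - z₀) - z₀ = t * (z - z₀) := by ring
      have e2 : ‖z₀ + (t : ℂ) * (z - z₀) - z₀‖ = t * ρ := by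
        rw [e1, norm_mul, Complex.norm_real, Real.norm_eq_abs, abs_of_nonneg ht.1]
      have h3 : ‖z₀ + (t : ℂ) * (z - z₀) - z₀‖ ≤ R := by
        rw [e2]
        have : t * ρ ≤ 1 * ρ := mul_le_mul_of_nonneg_right ht.2.le hρ0
        linarith
      have h4 := hf _ h3
      rw [e2] at h4
      rw [norm_mul]
      calc ‖f (z₀ + (t : ℂ) * (z - z₀))‖ * ‖z - z₀‖ ≤
            (C * (M * Real.exp (2 * C * (t * ρ)))) * ρ := mul_le_mul_of_nonneg_right h4 hρ0
        _ = M / 2 * (Real.exp (2 * C * ρ * t) * (2 * C * ρ)) := by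
            rw [show 2 * C * (t * ρ) = 2 * C * ρ * t by ring]; ring)
  have h1 := key (right_mem_Icc.mpr zero_le_one)
  simpa using h1

/-- the Picard iterates -/
lemma exists_iterates {A B : ℂ → ℂ} (hA : Differentiable ℂ A) (hB : Differentiable ℂ B)
    (z₀ x₀ y₀ : ℂ) : ∃ f g : ℕ → ℂ → ℂ, (∀ z, f 0 z = x₀) ∧ (∀ z, g 0 z = y₀) ∧
      (∀ n, f (n + 1) z₀ = 0) ∧ (∀ n, g (n + 1) z₀ = 0) ∧
      (∀ n z, HasDerivAt (f (n + 1)) (A z * g n z) z) ∧
      (∀ n z, HasDerivAt (g (n + 1)) (B z * f n z) z) := by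
  have hstep : ∀ p : {p : (ℂ → ℂ) × (ℂ → ℂ) // Differentiable ℂ p.1 ∧ Differentiable ℂ p.2},
      ∃ q : {p : (ℂ → ℂ) × (ℂ → ℂ) // Differentiable ℂ p.1 ∧ Differentiable ℂ p.2},
        q.1.1 z₀ = 0 ∧ q.1.2 z₀ = 0 ∧ (∀ z, HasDerivAt q.1.1 (A z * p.1.2 z) z) ∧
        (∀ z, HasDerivAt q.1.2 (B z * p.1.1 z) z) := by
    rintro ⟨⟨u, v⟩, hu, hv⟩
    obtain ⟨F, h1, h2⟩ := exists_prim (hA.mul hv) z₀
    obtain ⟨G, h3, h4⟩ := exists_prim (hB.mul hu) z₀
    exact ⟨⟨(F, G), fun z => (h2 z).differentiableAt, fun z => (h4 z).differentiableAt⟩,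
      h1, h3, h2, h4⟩
  choose next hnext using hstep
  set p0 : {p : (ℂ → ℂ) × (ℂ → ℂ) // Differentiable ℂ p.1 ∧ Differentiable ℂ p.2} :=
    ⟨(fun _ => x₀, fun _ => y₀), differentiable_const _, differentiable_const _⟩ with hp0
  set seq : ℕ → {p : (ℂ → ℂ) × (ℂ → ℂ) // Differentiable ℂ p.1 ∧ Differentiable ℂ p.2} :=
    fun n => Nat.rec p0 (fun _ q => next q) n with hseq
  refine ⟨fun n => (seq n).1.1, fun n => (seq n).1.2, fun z => rfl, fun z => rfl,
    fun n => (hnext (seq n)).1, fun n => (hnext (seq n)).2.1, fun n z => (hnext (seq n)).2.2.1 z,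
    fun n z => (hnext (seq n)).2.2.2 z⟩

theorem exists_entire {A B : ℂ → ℂ} (hA : Differentiable ℂ A) (hB : Differentiable ℂ B)
    (z₀ x₀ y₀ : ℂ) : ∃ x y : ℂ → ℂ, (∀ z, HasDerivAt x (A z * y z) z) ∧
      (∀ z, HasDerivAt y (B z * x z) z) ∧ x z₀ = x₀ ∧ y z₀ = y₀ := by
  obtain ⟨f, g, hf0, hg0, hfz, hgz, hf, hg⟩ := exists_iterates hA hB z₀ x₀ y₀
  set M := max ‖x₀‖ ‖y₀‖ with hM
  have hM0 : 0 ≤ M := (norm_nonneg _).trans (le_max_left _ _)
  -- bounds on balls
  have hbd : ∀ R : ℝ, 0 < R → ∃ C : ℝ, 0 < C ∧ (∀ z, ‖z - z₀‖ ≤ R → ‖A z‖ ≤ C ∧ ‖B z‖ ≤ C) ∧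
      ∀ n z, ‖z - z₀‖ ≤ R → ‖f n z‖ ≤ M * (1 / 2) ^ n * Real.exp (2 * C * ‖z - z₀‖) ∧
        ‖g n z‖ ≤ M * (1 / 2) ^ n * Real.exp (2 * C * ‖z - z₀‖) := by
    intro R hR
    obtain ⟨C1, hC1⟩ := (isCompact_closedBall z₀ R).exists_bound_of_continuousOn
      hA.continuous.continuousOn
    obtain ⟨C2, hC2⟩ := (isCompact_closedBall z₀ R).exists_bound_of_continuousOn
      hB.continuous.continuousOn
    set C := max 1 (max C1 C2) with hC
    have hCpos : 0 < C := lt_of_lt_of_le one_pos (le_max_left _ _)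
    have hAC : ∀ z, ‖z - z₀‖ ≤ R → ‖A z‖ ≤ C := fun z hz =>
      (hC1 z (by rwa [Metric.mem_closedBall, dist_eq_norm])).trans
        ((le_max_left _ _).trans (le_max_right _ _))
    have hBC : ∀ z, ‖z - z₀‖ ≤ R → ‖B z‖ ≤ C := fun z hz =>
      (hC2 z (by rwa [Metric.mem_closedBall, dist_eq_norm])).trans
        ((le_max_right _ _).trans (le_max_right _ _))
    refine ⟨C, hCpos, fun z hz => ⟨hAC z hz, hBC z hz⟩, ?_⟩
    intro n
    induction n with
    | zero =>
      intro z hz
      have h1 : 1 ≤ Real.exp (2 * C * ‖z - z₀‖) := Real.one_le_exp (by positivity)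
      rw [hf0, hg0, pow_zero, mul_one]
      constructor
      · calc ‖x₀‖ ≤ M * 1 := by rw [mul_one]; exact le_max_left _ _
          _ ≤ _ := by gcongr
      · calc ‖y₀‖ ≤ M * 1 := by rw [mul_one]; exact le_max_right _ _
          _ ≤ _ := by gcongr
    | succ n ih =>
      intro z hz
      have hMn : 0 ≤ M * (1 / 2) ^ n := by positivity
      have e : M * (1 / 2) ^ (n + 1) = M * (1 / 2) ^ n / 2 := by ring
      rw [e]
      constructor
      · apply prim_bound (hfz n) (hf n) hCpos hMn _ hz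
        intro w hw
        rw [norm_mul]
        exact mul_le_mul (hAC w hw) (ih w hw).2 (norm_nonneg _) hCpos.le
      · apply prim_bound (hgz n) (hg n) hCpos hMn _ hz
        intro w hw
        rw [norm_mul]
        exact mul_le_mul (hBC w hw) (ih w hw).1 (norm_nonneg _) hCpos.le
  -- summability
  have hsum : ∀ z, Summable (fun n => f n z) ∧ Summable (fun n => g n z) := by
    intro z
    obtain ⟨C, hC, -, hb⟩ := hbd (‖z - z₀‖ + 1) (by positivity)
    have hgeo : Summable fun n : ℕ => M * (1 / 2) ^ n * Real.exp (2 * C * ‖z - z₀‖) :=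
      (summable_geometric_two.mul_left M).mul_right _
    exact ⟨Summable.of_norm_bounded hgeo fun n => (hb n z (by linarith)).1,
      Summable.of_norm_bounded hgeo fun n => (hb n z (by linarith)).2⟩
  have hderiv : ∀ z, HasDerivAt (fun z => ∑' n, f n z) (A z * ∑' n, g n z) z ∧
      HasDerivAt (fun z => ∑' n, g n z) (B z * ∑' n, f n z) z := by
    intro z
    set R := ‖z - z₀‖ + 1 with hR
    have hRpos : 0 < R := by positivity
    obtain ⟨C, hC, hAB, hb⟩ := hbd R hRpos
    have hgeo : Summable fun n : ℕ => C * (M * (1 / 2) ^ n * Real.exp (2 * C * R)) :=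
      ((summable_geometric_two.mul_left M).mul_right _).mul_left C
    have hu : Summable fun n : ℕ => if n = 0 then 0 else
        C * (M * (1 / 2) ^ (n - 1) * Real.exp (2 * C * R)) := by
      rw [← summable_nat_add_iff 1]
      simpa using hgeo
    have hexp : ∀ w, ‖w - z₀‖ ≤ R → Real.exp (2 * C * ‖w - z₀‖) ≤ Real.exp (2 * C * R) := by
      intro w hw
      apply Real.exp_le_exp.mpr
      gcongr
    have hzb : z ∈ Metric.ball z₀ R := by
      rw [Metric.mem_ball, dist_eq_norm, hR]; linarith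
    have hz0b : z₀ ∈ Metric.ball z₀ R := Metric.mem_ball_self hRpos
    constructor
    · have h1 := hasDerivAt_tsum_of_isPreconnected hu Metric.isOpen_ball
        (convex_ball z₀ R).isPreconnected
        (g := fun n z => f n z) (g' := fun n z => if n = 0 then 0 else A z * g (n - 1) z)
        (fun n w _ => by
          rcases n with _ | n
          · have : f 0 = fun _ => x₀ := funext hf0
            simp only [if_true, this]
            exact hasDerivAt_const w x₀
          · simpa using hf n w)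
        (fun n w hw => by
          rw [Metric.mem_ball, dist_eq_norm] at hw
          rcases n with _ | n
          · simp
          · simp only [Nat.add_eq_zero_iff, one_ne_zero, and_false, if_false,
              Nat.add_sub_cancel, norm_mul]
            exact mul_le_mul (hAB w hw.le).1 ((hb n w hw.le).2.trans (by
              have := hexp w hw.le
              gcongr)) (norm_nonneg _) hC.le)
        hz0b (hsum z₀).1 hzb
      refine h1.congr_deriv ?_
      have hs : Summable fun n : ℕ => (if n = 0 then 0 else A z * g (n - 1) z : ℂ) := by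
        rw [← summable_nat_add_iff 1]
        simpa using (hsum z).2.mul_left (A z)
      rw [hs.tsum_eq_zero_add, ← tsum_mul_left]
      simp
    · have h1 := hasDerivAt_tsum_of_isPreconnected hu Metric.isOpen_ball
        (convex_ball z₀ R).isPreconnected
        (g := fun n z => g n z) (g' := fun n z => if n = 0 then 0 else B z * f (n - 1) z)
        (fun n w _ => by
          rcases n with _ | n
          · have : g 0 = fun _ => y₀ := funext hg0
            simp only [if_true, this]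
            exact hasDerivAt_const w y₀
          · simpa using hg n w)
        (fun n w hw => by
          rw [Metric.mem_ball, dist_eq_norm] at hw
          rcases n with _ | n
          · simp
          · simp only [Nat.add_eq_zero_iff, one_ne_zero, and_false, if_false,
              Nat.add_sub_cancel, norm_mul]
            exact mul_le_mul (hAB w hw.le).2 ((hb n w hw.le).1.trans (by
              have := hexp w hw.le
              gcongr)) (norm_nonneg _) hC.le)
        hz0b (hsum z₀).2 hzb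
      refine h1.congr_deriv ?_
      have hs : Summable fun n : ℕ => (if n = 0 then 0 else B z * f (n - 1) z : ℂ) := by
        rw [← summable_nat_add_iff 1]
        simpa using (hsum z).1.mul_left (B z)
      rw [hs.tsum_eq_zero_add, ← tsum_mul_left]
      simp
  refine ⟨fun z => ∑' n, f n z, fun z => ∑' n, g n z, fun z => (hderiv z).1,
    fun z => (hderiv z).2, ?_, ?_⟩
  · simp only
    rw [(hsum z₀).1.tsum_eq_zero_add]
    simp [hf0, hfz]
  · simp only
    rw [(hsum z₀).2.tsum_eq_zero_add]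
    simp [hg0, hgz]

end Pool.Agent.Work.MP_1ba01c_an
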