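import Mathlib

set_option autoImplicit false

open Set Filter Topology MeasureTheory
open scoped NNReal

namespace Pool.Agent.Work.MP_1ba01c_an

/-! ### estimates on a horizontal line -/

lemma cos_diff {s u : ℝ} (hu : 0 ≤ u) (hus : u ≤ s) (hs : s ≤ Real.pi) :
    2 * ((s - u) / Real.pi) ^ 2 ≤ Real.cos u - Real.cos s := by
  have hpi := Real.pi_pos
  have h1 : Real.cos u - Real.cos s =
      2 * Real.sin ((s + u) / 2) * Real.sin ((s - u) / 2) := by
    rw [Real.cos_sub_cos, show (u - s) / 2 = -((s - u) / 2) by ring, Real.sin_neg,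
      show (u + s) / 2 = (s + u) / 2 by ring]
    ring
  have h2 : (s - u) / Real.pi ≤ Real.sin ((s - u) / 2) := by
    have := Real.mul_le_sin (x := (s - u) / 2) (by linarith) (by linarith)
    calc (s - u) / Real.pi = 2 / Real.pi * ((s - u) / 2) := by field_simp
      _ ≤ _ := this
  have h3 : Real.sin ((s - u) / 2) ≤ Real.sin ((s + u) / 2) := by
    by_cases h : (s + u) / 2 ≤ Real.pi / 2
    · apply Real.sin_le_sin_of_le_of_le_pi_div_two <;> linarith
    · push Not at h
      rw [← Real.sin_pi_sub ((s + u) / 2)]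
      apply Real.sin_le_sin_of_le_of_le_pi_div_two <;> linarith
  have h4 : 0 ≤ (s - u) / Real.pi := div_nonneg (by linarith) hpi.le
  rw [h1]
  nlinarith

/-- the bound for the kernel -/
noncomputable def HH (K : ℝ) : ℝ := Real.exp (1 / 4) * Real.pi / √(2 * K)

lemma kernel_le {K : ℝ} (hK : 0 < K) {s : ℝ} (hs0 : 0 ≤ s) (hs : s ≤ Real.pi) :
    ∫ u in (0:ℝ)..s, Real.exp (K * (Real.cos s - Real.cos u)) ≤ HH K := by
  have hpi := Real.pi_pos
  set l := √(2 * K) / Real.pi with hl
  have hsq : 0 < √(2 * K) := by positivity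
  have hl0 : 0 < l := by positivity
  have hl2 : l ^ 2 = 2 * K / Real.pi ^ 2 := by
    rw [hl, div_pow, Real.sq_sqrt (by positivity)]
  have h1 : ∫ u in (0:ℝ)..s, Real.exp (K * (Real.cos s - Real.cos u)) ≤
      ∫ u in (0:ℝ)..s, Real.exp (1 / 4) * Real.exp (-(l * (s - u))) := by
    apply intervalIntegral.integral_mono_on hs0
    · apply Continuous.intervalIntegrable; fun_prop
    · apply Continuous.intervalIntegrable; fun_prop
    · intro u hu
      rw [← Real.exp_add]
      apply Real.exp_le_exp.mpr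
      have h2 := cos_diff hu.1 hu.2 hs
      have h3 : K * (Real.cos s - Real.cos u) ≤ -(K * (2 * ((s - u) / Real.pi) ^ 2)) := by
        have := mul_le_mul_of_nonneg_left h2 hK.le
        linarith
      have h4 : K * (2 * ((s - u) / Real.pi) ^ 2) = (l * (s - u)) ^ 2 := by
        rw [mul_pow, hl2, div_pow]; ring
      rw [h4] at h3
      nlinarith [sq_nonneg (l * (s - u) - 1 / 2)]
  refine h1.trans ?_
  rw [intervalIntegral.integral_const_mul]
  have hF : ∀ u : ℝ, HasDerivAt (fun u : ℝ => Real.exp (-(l * (s - u))) / l)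
      (Real.exp (-(l * (s - u)))) u := by
    intro u
    have h2 : HasDerivAt (fun u : ℝ => -(l * (s - u))) l u := by
      have h := (((hasDerivAt_id u).const_sub s).const_mul l).neg
      exact h.congr_deriv (by simp)
    have h3 := (h2.exp).div_const l
    refine h3.congr_deriv ?_
    field_simp
  rw [intervalIntegral.integral_eq_sub_of_hasDerivAt (fun u _ => hF u) (by
    apply Continuous.intervalIntegrable; fun_prop)]
  have h5 : Real.exp (-(l * (s - s))) / l - Real.exp (-(l * (s - 0))) / l ≤ 1 / l := by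
    rw [sub_self, mul_zero, neg_zero, Real.exp_zero]
    have : 0 < Real.exp (-(l * (s - 0))) / l := by positivity
    linarith
  unfold HH
  calc Real.exp (1 / 4) * (Real.exp (-(l * (s - s))) / l - Real.exp (-(l * (s - 0))) / l) ≤
        Real.exp (1 / 4) * (1 / l) := mul_le_mul_of_nonneg_left h5 (Real.exp_pos _).le
    _ = Real.exp (1 / 4) * Real.pi / √(2 * K) := by rw [hl]; field_simp

lemma HH_nonneg (K : ℝ) : 0 ≤ HH K := by
  have := Real.pi_pos
  unfold HH; positivity

lemma HH_tendsto : Tendsto HH atTop (𝓝 0) := by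
  unfold HH
  apply Tendsto.div_atTop tendsto_const_nhds
  exact Real.tendsto_sqrt_atTop.comp (tendsto_id.const_mul_atTop (by norm_num))

theorem line_est {x y a a' : ℝ → ℂ} {c : ℂ} {K : ℝ}
    (hx : ∀ t, HasDerivAt x (c * a' t * y t) t) (hy : ∀ t, HasDerivAt y (c * a t * x t) t)
    (ha : Continuous a) (hx0 : x 0 = 1) (hy0 : y 0 = 0) (hK : 0 < K)
    (haa : ∀ s u, 0 ≤ u → u ≤ s → s ≤ Real.pi →
      ‖a' s * a u‖ ≤ Real.exp (K * (Real.cos s - Real.cos u)))
    (hsmall : ‖c‖ ^ 2 * Real.pi * HH K ≤ 1 / 2) :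
    ‖x Real.pi - 1‖ ≤ 2 * (‖c‖ ^ 2 * Real.pi * HH K) := by
  have hpi := Real.pi_pos
  have hxc : Continuous x := continuous_iff_continuousAt.mpr fun t => (hx t).continuousAt
  have hyc : Continuous y := continuous_iff_continuousAt.mpr fun t => (hy t).continuousAt
  have hHH := HH_nonneg K
  obtain ⟨t₀, ht₀, hmax⟩ := isCompact_Icc.exists_isMaxOn
    (⟨0, ⟨le_rfl, hpi.le⟩⟩ : (Icc (0:ℝ) Real.pi).Nonempty) (hxc.norm).continuousOn
  set m := ‖x t₀‖ with hm
  have hm0 : 0 ≤ m := norm_nonneg _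
  have hxm : ∀ t ∈ Icc (0:ℝ) Real.pi, ‖x t‖ ≤ m := fun t ht => hmax ht
  have hyb : ∀ s ∈ Icc (0:ℝ) Real.pi, ‖a' s * y s‖ ≤ ‖c‖ * m * HH K := by
    intro s hs
    have h1 : y s = ∫ u in (0:ℝ)..s, c * a u * x u := by
      rw [intervalIntegral.integral_eq_sub_of_hasDerivAt (fun u _ => hy u) (by
        apply Continuous.intervalIntegrable; fun_prop), hy0, sub_zero]
    rw [h1, ← intervalIntegral.integral_const_mul]
    have h2 : ‖∫ u in (0:ℝ)..s, a' s * (c * a u * x u)‖ ≤
        ∫ u in (0:ℝ)..s, ‖c‖ * m * Real.exp (K * (Real.cos s - Real.cos u)) := by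
      apply intervalIntegral.norm_integral_le_of_norm_le hs.1
      · filter_upwards with u hu
        have h3 := haa s u hu.1.le hu.2 hs.2
        have h4 := hxm u ⟨hu.1.le, hu.2.trans hs.2⟩
        have e : a' s * (c * a u * x u) = c * (a' s * a u) * x u := by ring
        rw [e, norm_mul, norm_mul]
        calc ‖c‖ * ‖a' s * a u‖ * ‖x u‖ ≤
              ‖c‖ * Real.exp (K * (Real.cos s - Real.cos u)) * m := by gcongr
          _ = _ := by ring
      · apply Continuous.intervalIntegrable; fun_prop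
    refine h2.trans ?_
    rw [intervalIntegral.integral_const_mul]
    exact mul_le_mul_of_nonneg_left (kernel_le hK hs.1 hs.2) (by positivity)
  have hdiff : ∀ t ∈ Icc (0:ℝ) Real.pi, ‖x t - 1‖ ≤ ‖c‖ ^ 2 * Real.pi * HH K * m := by
    intro t ht
    have h1 := norm_image_sub_le_of_norm_deriv_le_segment' (f := x)
      (f' := fun t => c * a' t * y t) (a := 0) (b := Real.pi) (C := ‖c‖ * (‖c‖ * m * HH K))
      (fun s _ => (hx s).hasDerivWithinAt) (fun s hs => by
        rw [mul_assoc, norm_mul]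
        exact mul_le_mul_of_nonneg_left (hyb s ⟨hs.1, hs.2.le⟩) (norm_nonneg _)) t ht
    rw [hx0, sub_zero] at h1
    refine h1.trans ?_
    have h2 : ‖c‖ * (‖c‖ * m * HH K) * t ≤ ‖c‖ * (‖c‖ * m * HH K) * Real.pi :=
      mul_le_mul_of_nonneg_left ht.2 (by positivity)
    refine h2.trans (le_of_eq ?_)
    ring
  have hm2 : m ≤ 2 := by
    have h1 := hdiff t₀ ht₀
    have h2 : m ≤ ‖x t₀ - 1‖ + 1 := by
      have := norm_add_le (x t₀ - 1) 1
      rw [sub_add_cancel, norm_one] at this
      exact this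
    nlinarith
  have h1 := hdiff Real.pi ⟨hpi.le, le_rfl⟩
  refine h1.trans ?_
  have : 0 ≤ ‖c‖ ^ 2 * Real.pi * HH K := by positivity
  nlinarith

end Pool.Agent.Work.MP_1ba01c_an
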