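import Pool.Agent.Work.MP_1ba01c_an.Adj
import Pool.Agent.Work.MP_1ba01c_an.Entire
import Pool.Agent.Work.MP_1ba01c_an.Line

set_option autoImplicit false

open Set Filter Topology MeasureTheory
open scoped NNReal

namespace Pool.Agent.Work.MP_1ba01c_an

/-- the unperturbed phase -/
noncomputable def th (b α : ℝ) (z : ℂ) : ℂ := b * z + α * Complex.sin z
noncomputable def EP (b α : ℝ) (z : ℂ) : ℂ := Complex.exp (Complex.I * th b α z)
noncomputable def EM (b α : ℝ) (z : ℂ) : ℂ := Complex.exp (-(Complex.I * th b α z))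

lemma th_diff (b α : ℝ) : Differentiable ℂ (th b α) := by
  unfold th
  exact (differentiable_id.const_mul _).add (Complex.differentiable_sin.const_mul _)

lemma EP_diff (b α : ℝ) : Differentiable ℂ (EP b α) := by
  unfold EP; exact ((th_diff b α).const_mul _).cexp

lemma EM_diff (b α : ℝ) : Differentiable ℂ (EM b α) := by
  unfold EM; exact (((th_diff b α).const_mul _).neg).cexp

/-- restricted to the real line -/
lemma th_real (b α t : ℝ) : th b α t = ((b * t + α * Real.sin t : ℝ) : ℂ) := by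
  unfold th; push_cast; rfl

lemma norm_EP_real (b α t : ℝ) : ‖EP b α t‖ = 1 := by
  unfold EP
  rw [th_real, mul_comm, Complex.norm_exp_ofReal_mul_I]

lemma norm_EM_real (b α t : ℝ) : ‖EM b α t‖ = 1 := by
  unfold EM
  rw [th_real, show -(Complex.I * ((b * t + α * Real.sin t : ℝ) : ℂ)) =
    ((-(b * t + α * Real.sin t) : ℝ) : ℂ) * Complex.I by push_cast; ring,
    Complex.norm_exp_ofReal_mul_I]

lemma th_im (b α t Y : ℝ) : (th b α (t + Y * Complex.I)).im =
    b * Y + α * (Real.cos t * Real.sinh Y) := by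
  unfold th
  rw [Complex.add_im, Complex.im_ofReal_mul, Complex.im_ofReal_mul, Complex.sin_eq]
  simp [← Complex.ofReal_sin, ← Complex.ofReal_cos, ← Complex.ofReal_sinh, ← Complex.ofReal_cosh]

lemma norm_EM_EP (b α Y s u : ℝ) :
    ‖EM b α (s + Y * Complex.I) * EP b α (u + Y * Complex.I)‖ =
      Real.exp (α * Real.sinh Y * (Real.cos s - Real.cos u)) := by
  unfold EM EP
  rw [← Complex.exp_add, Complex.norm_exp]
  congr 1
  have h1 : ∀ w : ℂ, (Complex.I * w).re = -w.im := by intro w; simp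
  rw [Complex.add_re, Complex.neg_re, h1, h1, th_im, th_im]
  ring

/-- uniqueness for the linear system on the real line -/
lemma real_unique {b α : ℝ} {c : ℂ} {x y x' y' : ℝ → ℂ}
    (hx : ∀ t : ℝ, HasDerivAt x (c * EM b α t * y t) t)
    (hy : ∀ t : ℝ, HasDerivAt y (c * EP b α t * x t) t)
    (hx' : ∀ t : ℝ, HasDerivAt x' (c * EM b α t * y' t) t)
    (hy' : ∀ t : ℝ, HasDerivAt y' (c * EP b α t * x' t) t)
    (h0 : x 0 = x' 0) (h0' : y 0 = y' 0) (t : ℝ) : x t = x' t := by
  have h := ODE_solution_unique_univ (t₀ := 0) (K := ‖c‖₊)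
    (f := fun t => (x t, y t)) (g := fun t => (x' t, y' t))
    (v := fun (t : ℝ) (p : ℂ × ℂ) => (c * EM b α t * p.2, c * EP b α t * p.1))
    (s := fun _ => univ) (by
      intro t
      apply LipschitzWith.lipschitzOnWith
      apply LipschitzWith.of_dist_le_mul
      intro p q
      rw [Prod.dist_eq, Prod.dist_eq]
      apply max_le
      · simp only
        rw [dist_eq_norm, ← mul_sub, norm_mul, norm_mul, norm_EM_real, mul_one, ← dist_eq_norm]
        exact mul_le_mul_of_nonneg_left (le_max_right _ _) (norm_nonneg _)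
      · simp only
        rw [dist_eq_norm, ← mul_sub, norm_mul, norm_mul, norm_EP_real, mul_one, ← dist_eq_norm]
        exact mul_le_mul_of_nonneg_left (le_max_left _ _) (norm_nonneg _))
    (fun t => ⟨(hx t).prodMk (hy t), mem_univ _⟩)
    (fun t => ⟨(hx' t).prodMk (hy' t), mem_univ _⟩)
    (by rw [h0, h0'])
  have := congrFun h t
  exact (Prod.mk.inj this).1

/-! ### real solutions of the linear system -/

noncomputable def rho (ε : ℝ) (φ : ℝ → ℝ) (t : ℝ) : ℝ :=
  Real.exp ((ε / 2) * ∫ u in (0:ℝ)..t, Real.cos (φ u))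

noncomputable def XR (ε b α : ℝ) (φ : ℝ → ℝ) (t : ℝ) : ℂ :=
  (rho ε φ t : ℂ) * Complex.exp (((φ t - (b * t + α * Real.sin t)) / 2 : ℝ) * Complex.I)

noncomputable def YR (ε b α : ℝ) (φ : ℝ → ℝ) (t : ℝ) : ℂ :=
  (rho ε φ t : ℂ) * Complex.exp (-(((φ t - (b * t + α * Real.sin t)) / 2 : ℝ) * Complex.I))

section Real

variable {ε b α : ℝ} {φ : ℝ → ℝ}

lemma hasDerivAt_rho (h : IsSol ε b α φ) (t : ℝ) :
    HasDerivAt (rho ε φ) (rho ε φ t * ((ε / 2) * Real.cos (φ t))) t := by
  have hc : Continuous fun u => Real.cos (φ u) := by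
    have := h.continuous
    fun_prop
  have hI : HasDerivAt (fun t => ∫ u in (0:ℝ)..t, Real.cos (φ u)) (Real.cos (φ t)) t :=
    intervalIntegral.integral_hasDerivAt_right (hc.intervalIntegrable _ _)
      (hc.stronglyMeasurableAtFilter _ _) hc.continuousAt
  exact (hI.const_mul (ε / 2)).exp

lemma hasDerivAt_half (h : IsSol ε b α φ) (t : ℝ) :
    HasDerivAt (fun t => ((((φ t - (b * t + α * Real.sin t)) / 2 : ℝ)) : ℂ))
      (((-(ε * Real.sin (φ t)) / 2 : ℝ)) : ℂ) t := by
  have h1 : HasDerivAt (fun t => (φ t - (b * t + α * Real.sin t)) / 2)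
      (-(ε * Real.sin (φ t)) / 2) t := by
    have h2 : HasDerivAt (fun t : ℝ => b * t) b t := by
      simpa using (hasDerivAt_id t).const_mul b
    have h3 := ((h t).sub (h2.add ((Real.hasDerivAt_sin t).const_mul α))).div_const 2
    refine h3.congr_deriv ?_
    ring
  exact h1.ofReal_comp

lemma EM_real_eq (b α t : ℝ) : EM b α t = Complex.exp (-((b * t + α * Real.sin t : ℝ) * Complex.I)) := by
  unfold EM; rw [th_real]; ring_nf

lemma EP_real_eq (b α t : ℝ) : EP b α t = Complex.exp (((b * t + α * Real.sin t : ℝ) * Complex.I)) := by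
  unfold EP; rw [th_real]; ring_nf

lemma hasDerivAt_XR (h : IsSol ε b α φ) (t : ℝ) :
    HasDerivAt (XR ε b α φ) ((ε / 2 : ℝ) * EM b α t * YR ε b α φ t) t := by
  have h1 := ((hasDerivAt_rho h t).ofReal_comp).mul
    (((hasDerivAt_half h t).mul_const Complex.I).cexp)
  refine h1.congr_deriv ?_
  unfold YR
  rw [EM_real_eq]
  set ψ : ℝ := (φ t - (b * t + α * Real.sin t)) / 2 with hψ
  set θ : ℝ := b * t + α * Real.sin t with hθ
  have e1 : Complex.exp (-((θ : ℂ) * Complex.I)) * ((rho ε φ t : ℂ) *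
      Complex.exp (-((ψ : ℂ) * Complex.I))) =
      (rho ε φ t : ℂ) * Complex.exp ((ψ : ℂ) * Complex.I) *
        Complex.exp (-((φ t : ℂ) * Complex.I)) := by
    have : -((θ : ℂ) * Complex.I) + -((ψ : ℂ) * Complex.I) =
        (ψ : ℂ) * Complex.I + -((φ t : ℂ) * Complex.I) := by
      have h2 : φ t = 2 * ψ + θ := by rw [hψ]; ring
      rw [h2]; push_cast; ring
    calc _ = (rho ε φ t : ℂ) * (Complex.exp (-((θ : ℂ) * Complex.I)) *
          Complex.exp (-((ψ : ℂ) * Complex.I))) := by ring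
      _ = (rho ε φ t : ℂ) * (Complex.exp ((ψ : ℂ) * Complex.I) *
          Complex.exp (-((φ t : ℂ) * Complex.I))) := by
            rw [← Complex.exp_add, ← Complex.exp_add, this]
      _ = _ := by ring
  have e2 : Complex.exp (-((φ t : ℂ) * Complex.I)) =
      (Real.cos (φ t) : ℂ) - (Real.sin (φ t) : ℂ) * Complex.I := by
    rw [← neg_mul, Complex.exp_mul_I, Complex.cos_neg, Complex.sin_neg]
    push_cast; ring
  rw [mul_assoc, e1, e2]
  push_cast
  ring

lemma hasDerivAt_YR (h : IsSol ε b α φ) (t : ℝ) :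
    HasDerivAt (YR ε b α φ) ((ε / 2 : ℝ) * EP b α t * XR ε b α φ t) t := by
  have h0 : HasDerivAt (fun t => -((((φ t - (b * t + α * Real.sin t)) / 2 : ℝ) : ℂ) * Complex.I))
      (-((((-(ε * Real.sin (φ t)) / 2 : ℝ)) : ℂ) * Complex.I)) t :=
    ((hasDerivAt_half h t).mul_const Complex.I).neg
  have h1 := ((hasDerivAt_rho h t).ofReal_comp).mul (h0.cexp)
  refine h1.congr_deriv ?_
  unfold XR
  rw [EP_real_eq]
  set ψ : ℝ := (φ t - (b * t + α * Real.sin t)) / 2 with hψ
  set θ : ℝ := b * t + α * Real.sin t with hθ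
  have e1 : Complex.exp ((θ : ℂ) * Complex.I) * ((rho ε φ t : ℂ) *
      Complex.exp ((ψ : ℂ) * Complex.I)) =
      (rho ε φ t : ℂ) * Complex.exp (-((ψ : ℂ) * Complex.I)) *
        Complex.exp ((φ t : ℂ) * Complex.I) := by
    have : (θ : ℂ) * Complex.I + (ψ : ℂ) * Complex.I =
        -((ψ : ℂ) * Complex.I) + (φ t : ℂ) * Complex.I := by
      have h2 : φ t = 2 * ψ + θ := by rw [hψ]; ring
      rw [h2]; push_cast; ring
    calc _ = (rho ε φ t : ℂ) * (Complex.exp ((θ : ℂ) * Complex.I) *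
          Complex.exp ((ψ : ℂ) * Complex.I)) := by ring
      _ = (rho ε φ t : ℂ) * (Complex.exp (-((ψ : ℂ) * Complex.I)) *
          Complex.exp ((φ t : ℂ) * Complex.I)) := by
            rw [← Complex.exp_add, ← Complex.exp_add, this]
      _ = _ := by ring
  have e2 : Complex.exp ((φ t : ℂ) * Complex.I) =
      (Real.cos (φ t) : ℂ) + (Real.sin (φ t) : ℂ) * Complex.I := by
    rw [Complex.exp_mul_I]
    push_cast; ring
  rw [mul_assoc, e1, e2]
  push_cast
  ring

/-- the multiplier -/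
noncomputable def kap (b : ℝ) (r : ℤ) : ℂ := Complex.exp ((Real.pi * (r - b) : ℝ) * Complex.I)

lemma XR_period {r : ℤ} (h : IsSol ε b α φ) (hp : ∀ t, φ (t + 2 * Real.pi) = φ t + 2 * Real.pi * r)
    (ho : ∀ t, Real.cos (φ (-t)) = -Real.cos (φ t)) (t : ℝ) :
    XR ε b α φ (t + 2 * Real.pi) = kap b r * XR ε b α φ t := by
  have hc : Continuous fun u => Real.cos (φ u) := by
    have := h.continuous
    fun_prop
  have hper : Function.Periodic (fun u => Real.cos (φ u)) (2 * Real.pi) := by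
    intro u
    simp only
    rw [hp, show φ u + 2 * Real.pi * r = φ u + r * (2 * Real.pi) by ring,
      Real.cos_add_int_mul_two_pi]
  have hint : ∫ u in t..(t + 2 * Real.pi), Real.cos (φ u) = 0 := by
    rw [hper.intervalIntegral_add_eq t (-Real.pi), show -Real.pi + 2 * Real.pi = Real.pi by ring,
      ← intervalIntegral.integral_add_adjacent_intervals (b := 0) (hc.intervalIntegrable _ _)
        (hc.intervalIntegrable _ _), intervalIntegral.integral_symm, int_neg_of_odd ho]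
    ring
  have hrho : rho ε φ (t + 2 * Real.pi) = rho ε φ t := by
    unfold rho
    rw [← intervalIntegral.integral_add_adjacent_intervals (b := t) (hc.intervalIntegrable _ _)
      (hc.intervalIntegrable _ _), hint, add_zero]
  unfold XR kap
  rw [hrho, hp, Real.sin_add_two_pi]
  have e : (((φ t + 2 * Real.pi * r - (b * (t + 2 * Real.pi) + α * Real.sin t)) / 2 : ℝ) : ℂ) *
      Complex.I = ((Real.pi * (r - b) : ℝ) : ℂ) * Complex.I +
        (((φ t - (b * t + α * Real.sin t)) / 2 : ℝ) : ℂ) * Complex.I := by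
    push_cast; ring
  rw [e, Complex.exp_add]
  ring

end Real

/-- periodicity of entire solutions -/
lemma entire_period {ε b α : ℝ} {r : ℤ} {φ₁ φ₂ : ℝ → ℝ} (h₁ : IsSol ε b α φ₁)
    (h₂ : IsSol ε b α φ₂) (h₁0 : φ₁ 0 = Real.pi / 2) (h₂0 : φ₂ 0 = -(Real.pi / 2))
    (hp₁ : ∀ t, φ₁ (t + 2 * Real.pi) = φ₁ t + 2 * Real.pi * r)
    (hp₂ : ∀ t, φ₂ (t + 2 * Real.pi) = φ₂ t + 2 * Real.pi * r)
    {x y : ℂ → ℂ} (hx : ∀ z, HasDerivAt x (((ε / 2 : ℝ) : ℂ) * EM b α z * y z) z)
    (hy : ∀ z, HasDerivAt y (((ε / 2 : ℝ) : ℂ) * EP b α z * x z) z) (z : ℂ) :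
    x (z + 2 * Real.pi) = kap b r * x z := by
  -- coefficients
  set w : ℂ := Complex.exp ((Real.pi / 4 : ℝ) * Complex.I) with hw
  set w' : ℂ := Complex.exp (-((Real.pi / 4 : ℝ) * Complex.I)) with hw'
  have hww : w * w' = 1 := by rw [hw, hw', ← Complex.exp_add]; simp
  have hw2 : w * w = Complex.I := by
    rw [hw, ← Complex.exp_add]
    have : ((Real.pi / 4 : ℝ) : ℂ) * Complex.I + ((Real.pi / 4 : ℝ) : ℂ) * Complex.I =
        (Real.pi / 2 : ℂ) * Complex.I := by push_cast; ring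
    rw [this, Complex.exp_pi_div_two_mul_I]
  have hw'2 : w' * w' = -Complex.I := by
    have h1 : (w * w) * (w' * w') = 1 := by
      calc (w * w) * (w' * w') = (w * w') * (w * w') := by ring
        _ = 1 := by rw [hww]; ring
    rw [hw2] at h1
    have h2 : Complex.I * (w' * w') * (-Complex.I) = 1 * (-Complex.I) := by rw [h1]
    have h3 : Complex.I * (w' * w') * (-Complex.I) = w' * w' := by
      have := Complex.I_mul_I
      linear_combination (-(w' * w')) * this
    rw [h3] at h2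
    linear_combination h2
  have r0 : ∀ φ : ℝ → ℝ, rho ε φ 0 = 1 := by intro φ; unfold rho; simp
  have hX₁ : XR ε b α φ₁ 0 = w := by
    unfold XR; rw [r0, h₁0, hw]; simp; ring_nf
  have hY₁ : YR ε b α φ₁ 0 = w' := by
    unfold YR; rw [r0, h₁0, hw']; simp; ring_nf
  have hX₂ : XR ε b α φ₂ 0 = w' := by
    unfold XR; rw [r0, h₂0, hw']; simp; ring_nf
  have hY₂ : YR ε b α φ₂ 0 = w := by
    unfold YR; rw [r0, h₂0, hw]; simp; ring_nf
  set c₁ : ℂ := (x 0 * w - y 0 * w') * (-Complex.I / 2) with hc₁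
  set c₂ : ℂ := (y 0 * w - x 0 * w') * (-Complex.I / 2) with hc₂
  have hII := Complex.I_mul_I
  have e₁ : c₁ * w + c₂ * w' = x 0 := by
    rw [hc₁, hc₂]
    linear_combination (x 0 * (-Complex.I / 2)) * hw2 - (x 0 * (-Complex.I / 2)) * hw'2 - x 0 * hII
  have e₂ : c₁ * w' + c₂ * w = y 0 := by
    rw [hc₁, hc₂]
    linear_combination (y 0 * (-Complex.I / 2)) * hw2 - (y 0 * (-Complex.I / 2)) * hw'2 - y 0 * hII
  -- the restriction to the real line
  have hxr : ∀ t : ℝ, HasDerivAt (fun t : ℝ => x t) (((ε / 2 : ℝ) : ℂ) * EM b α t * y t) t :=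
    fun t => (hx t).comp_ofReal
  have hyr : ∀ t : ℝ, HasDerivAt (fun t : ℝ => y t) (((ε / 2 : ℝ) : ℂ) * EP b α t * x t) t :=
    fun t => (hy t).comp_ofReal
  have hreal : ∀ t : ℝ, x t = c₁ * XR ε b α φ₁ t + c₂ * XR ε b α φ₂ t := by
    intro t
    apply real_unique (x := fun t : ℝ => x t) (y := fun t : ℝ => y t)
      (x' := fun t => c₁ * XR ε b α φ₁ t + c₂ * XR ε b α φ₂ t)
      (y' := fun t => c₁ * YR ε b α φ₁ t + c₂ * YR ε b α φ₂ t) hxr hyr
    · intro t
      have := ((hasDerivAt_XR h₁ t).const_mul c₁).add ((hasDerivAt_XR h₂ t).const_mul c₂)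
      exact this.congr_deriv (by ring)
    · intro t
      have := ((hasDerivAt_YR h₁ t).const_mul c₁).add ((hasDerivAt_YR h₂ t).const_mul c₂)
      exact this.congr_deriv (by ring)
    · rw [hX₁, hX₂, e₁]; simp
    · rw [hY₁, hY₂, e₂]; simp
  have ho₁ : ∀ t, Real.cos (φ₁ (-t)) = -Real.cos (φ₁ t) := fun t => by
    rw [reflect_pos h₁ h₁0, Real.cos_pi_sub]
  have ho₂ : ∀ t, Real.cos (φ₂ (-t)) = -Real.cos (φ₂ t) := fun t => by
    rw [reflect_neg h₂ h₂0, show -Real.pi - φ₂ t = -(Real.pi + φ₂ t) by ring, Real.cos_neg,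
      add_comm, Real.cos_add_pi]
  have hper : ∀ t : ℝ, x ((t : ℂ) + 2 * Real.pi) = kap b r * x t := by
    intro t
    have h1 := hreal (t + 2 * Real.pi)
    push_cast at h1
    rw [h1, XR_period h₁ hp₁ ho₁, XR_period h₂ hp₂ ho₂, hreal t]
    ring
  -- identity theorem
  have hxd : Differentiable ℂ x := fun z => (hx z).differentiableAt
  have ha1 : AnalyticOnNhd ℂ (fun z => x (z + 2 * Real.pi)) univ := by
    have : Differentiable ℂ (fun z => x (z + 2 * Real.pi)) :=
      hxd.comp (differentiable_id.add_const _)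
    exact this.differentiableOn.analyticOnNhd isOpen_univ
  have ha2 : AnalyticOnNhd ℂ (fun z => kap b r * x z) univ :=
    (hxd.const_mul _).differentiableOn.analyticOnNhd isOpen_univ
  have hfreq : ∃ᶠ z in 𝓝[≠] (0:ℂ), x (z + 2 * Real.pi) = kap b r * x z := by
    have ht : Tendsto (fun t : ℝ => (t : ℂ)) (𝓝[≠] (0:ℝ)) (𝓝[≠] (0:ℂ)) := by
      apply tendsto_nhdsWithin_of_tendsto_nhds_of_eventually_within
      · have : Tendsto (fun t : ℝ => (t : ℂ)) (𝓝 (0:ℝ)) (𝓝 ((0:ℝ):ℂ)) :=
          Complex.continuous_ofReal.tendsto 0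
        rw [Complex.ofReal_zero] at this
        exact this.mono_left nhdsWithin_le_nhds
      · filter_upwards [self_mem_nhdsWithin] with t ht
        simpa using ht
    apply ht.frequently
    apply Eventually.frequently
    filter_upwards with t
    exact hper t
  exact congrFun (ha1.eq_of_frequently_eq ha2 hfreq) z

/-- the key estimate -/
lemma near_one {ε b α : ℝ} (hα : 0 < α) {η : ℝ} (hη : 0 < η) :
    ∃ (Y : ℝ) (x y : ℂ → ℂ), (∀ z, HasDerivAt x (((ε / 2 : ℝ) : ℂ) * EM b α z * y z) z) ∧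
      (∀ z, HasDerivAt y (((ε / 2 : ℝ) : ℂ) * EP b α z * x z) z) ∧
      ‖x (Real.pi + Y * Complex.I) - 1‖ ≤ η ∧ ‖x (-Real.pi + Y * Complex.I) - 1‖ ≤ η := by
  have hpi := Real.pi_pos
  set c : ℂ := ((ε / 2 : ℝ) : ℂ) with hc
  have hlim : Tendsto (fun Y : ℝ => ‖c‖ ^ 2 * Real.pi * HH (α * Real.sinh Y)) atTop (𝓝 0) := by
    have h1 : Tendsto (fun Y : ℝ => α * Real.sinh Y) atTop atTop := by
      apply Tendsto.const_mul_atTop hα
      apply tendsto_atTop_mono' atTop _ tendsto_id
      filter_upwards [eventually_ge_atTop 0] with Y hY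
      exact Real.self_le_sinh_iff.mpr hY
    have h2 := (HH_tendsto.comp h1).const_mul (‖c‖ ^ 2 * Real.pi)
    rw [mul_zero] at h2
    exact h2
  have hev : ∀ᶠ Y : ℝ in atTop, ‖c‖ ^ 2 * Real.pi * HH (α * Real.sinh Y) < min (1 / 2) (η / 2) :=
    hlim.eventually_lt_const (by positivity)
  obtain ⟨Y, hY1, hY0⟩ := (hev.and (eventually_gt_atTop 0)).exists
  have hK : 0 < α * Real.sinh Y := mul_pos hα (Real.sinh_pos_iff.mpr hY0)
  have hsm1 : ‖c‖ ^ 2 * Real.pi * HH (α * Real.sinh Y) ≤ 1 / 2 := (hY1.trans_le (min_le_left _ _)).le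
  have hsm2 : ‖c‖ ^ 2 * Real.pi * HH (α * Real.sinh Y) ≤ η / 2 := (hY1.trans_le (min_le_right _ _)).le
  obtain ⟨x, y, hx, hy, hx0, hy0⟩ := exists_entire (A := fun z => c * EM b α z)
    (B := fun z => c * EP b α z) ((EM_diff b α).const_mul _) ((EP_diff b α).const_mul _)
    (Y * Complex.I) 1 0
  refine ⟨Y, x, y, hx, hy, ?_, ?_⟩
  · have hl : ∀ t : ℝ, HasDerivAt (fun t : ℝ => (t : ℂ) + Y * Complex.I) 1 t := by
      intro t
      exact ((hasDerivAt_id t).ofReal_comp).add_const (Y * Complex.I)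
    have h1 := line_est (x := fun t : ℝ => x (t + Y * Complex.I))
      (y := fun t : ℝ => y (t + Y * Complex.I)) (a := fun t : ℝ => EP b α (t + Y * Complex.I))
      (a' := fun t : ℝ => EM b α (t + Y * Complex.I)) (c := c) (K := α * Real.sinh Y)
      (fun t => by
        have := (hx (t + Y * Complex.I)).scomp t (hl t)
        exact this.congr_deriv (by simp))
      (fun t => by
        have := (hy (t + Y * Complex.I)).scomp t (hl t)
        exact this.congr_deriv (by simp))
      ((EP_diff b α).continuous.comp (by fun_prop)) (by simpa using hx0) (by simpa using hy0) hK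
      (fun s u _ _ _ => (norm_EM_EP b α Y s u).le) hsm1
    refine h1.trans ?_
    linarith
  · have hl : ∀ t : ℝ, HasDerivAt (fun t : ℝ => -(t : ℂ) + Y * Complex.I) (-1) t := by
      intro t
      exact (((hasDerivAt_id t).ofReal_comp).neg).add_const (Y * Complex.I)
    have h1 := line_est (x := fun t : ℝ => x (-t + Y * Complex.I))
      (y := fun t : ℝ => y (-t + Y * Complex.I)) (a := fun t : ℝ => EP b α (-t + Y * Complex.I))
      (a' := fun t : ℝ => EM b α (-t + Y * Complex.I)) (c := -c) (K := α * Real.sinh Y)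
      (fun t => by
        have := (hx (-t + Y * Complex.I)).scomp t (hl t)
        refine this.congr_deriv ?_
        simp)
      (fun t => by
        have := (hy (-t + Y * Complex.I)).scomp t (hl t)
        refine this.congr_deriv ?_
        simp)
      ((EP_diff b α).continuous.comp (by fun_prop)) (by simpa using hx0) (by simpa using hy0) hK
      (fun s u _ _ _ => by
        have := norm_EM_EP b α Y (-s) (-u)
        rw [Real.cos_neg, Real.cos_neg] at this
        push_cast at this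
        exact this.le)
      (by rw [norm_neg]; exact hsm1)
    rw [norm_neg] at h1
    refine h1.trans ?_
    linarith

theorem integrality {ε b α : ℝ} (hα : 0 < α) {r : ℤ} {φ₁ φ₂ : ℝ → ℝ} (h₁ : IsSol ε b α φ₁)
    (h₂ : IsSol ε b α φ₂) (h₁0 : φ₁ 0 = Real.pi / 2) (h₂0 : φ₂ 0 = -(Real.pi / 2))
    (hp₁ : ∀ t, φ₁ (t + 2 * Real.pi) = φ₁ t + 2 * Real.pi * r)
    (hp₂ : ∀ t, φ₂ (t + 2 * Real.pi) = φ₂ t + 2 * Real.pi * r) : kap b r = 1 := by
  by_contra hne
  have hpos : 0 < ‖kap b r - 1‖ := norm_pos_iff.mpr (sub_ne_zero.mpr hne)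
  obtain ⟨Y, x, y, hx, hy, hx1, hx2⟩ := near_one (ε := ε) (b := b) hα
    (η := ‖kap b r - 1‖ / 4) (by positivity)
  have hper := entire_period h₁ h₂ h₁0 h₂0 hp₁ hp₂ hx hy (-Real.pi + Y * Complex.I)
  have e : (-(Real.pi : ℂ) + Y * Complex.I + 2 * Real.pi) = Real.pi + Y * Complex.I := by ring
  rw [e] at hper
  have hk : ‖kap b r‖ = 1 := by unfold kap; exact Complex.norm_exp_ofReal_mul_I _
  have h1 : kap b r - 1 = (x (Real.pi + Y * Complex.I) - 1) -
      kap b r * (x (-Real.pi + Y * Complex.I) - 1) := by rw [hper]; ring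
  have h2 := norm_sub_le (x (Real.pi + Y * Complex.I) - 1)
    (kap b r * (x (-Real.pi + Y * Complex.I) - 1))
  rw [← h1, norm_mul, hk, one_mul] at h2
  linarith

/-- the abscissa of an adjacency of `L_r` is congruent to `r` modulo `2` -/
theorem adj_integer {ε b α : ℝ} (hα : 0 < α) {r : ℤ} (h : Adj ε b α r) :
    ∃ k : ℤ, b = r + 2 * k := by
  have h1 := integrality hα (fl_sol _ _ _ _) (fl_sol _ _ _ _) (fl_zero _ _ _ _) (fl_zero _ _ _ _)
    h.per_pos h.per_neg
  unfold kap at h1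
  rw [Complex.exp_eq_one_iff] at h1
  obtain ⟨n, hn⟩ := h1
  refine ⟨-n, ?_⟩
  have h2 : ((Real.pi * (r - b) : ℝ) : ℂ) = ((n * (2 * Real.pi) : ℝ) : ℂ) := by
    have hI : Complex.I ≠ 0 := Complex.I_ne_zero
    apply mul_right_cancel₀ hI
    rw [hn]; push_cast; ring
  have h3 : Real.pi * (r - b) = n * (2 * Real.pi) := by exact_mod_cast h2
  have hpi := Real.pi_pos
  have h4 : (r:ℝ) - b = 2 * n := by
    have : Real.pi * ((r - b) - 2 * n) = 0 := by linear_combination h3
    rcases mul_eq_zero.mp this with h5 | h5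
    · exact absurd h5 hpi.ne'
    · linarith
  push_cast
  linarith

end Pool.Agent.Work.MP_1ba01c_an
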