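import Mathlib

set_option autoImplicit false

open Set Filter Topology MeasureTheory
open scoped NNReal

namespace Pool.Agent.Work.MP_1ba01c_an

/-- solutions of the scaled equation `φ' = b + α cos t - ε sin φ` -/
def IsSol (ε b α : ℝ) (φ : ℝ → ℝ) : Prop :=
  ∀ t, HasDerivAt φ (b + α * Real.cos t - ε * Real.sin (φ t)) t

lemma IsSol.continuous {ε b α : ℝ} {φ : ℝ → ℝ} (h : IsSol ε b α φ) : Continuous φ :=
  continuous_iff_continuousAt.mpr fun t => (h t).continuousAt

/-- the comparison formula -/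
lemma delta {ε b α b' α' : ℝ} {φ ψ : ℝ → ℝ} (h : IsSol ε b α φ) (h' : IsSol ε b' α' ψ) :
    ∃ G : ℝ → ℝ, Continuous G ∧ G 0 = 0 ∧ (∀ t, |G t| ≤ |ε| * |t|) ∧
      ∀ t, (ψ t - φ t) * Real.exp (G t) = (ψ 0 - φ 0) +
        ∫ s in (0:ℝ)..t, ((b' - b) + (α' - α) * Real.cos s) * Real.exp (G s) := by
  have hφ := h.continuous
  have hψ := h'.continuous
  set g : ℝ → ℝ := fun t => ε * (Real.cos ((ψ t + φ t) / 2) * Real.sinc ((ψ t - φ t) / 2)) with hg
  have hgc : Continuous g := by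
    rw [hg]
    have := Real.continuous_sinc
    fun_prop
  set G : ℝ → ℝ := fun t => ∫ s in (0:ℝ)..t, g s with hG
  have hGd : ∀ t, HasDerivAt G (g t) t := fun t =>
    intervalIntegral.integral_hasDerivAt_right (hgc.intervalIntegrable _ _)
      (hgc.stronglyMeasurableAtFilter _ _) hgc.continuousAt
  have hGc : Continuous G := continuous_iff_continuousAt.mpr fun t => (hGd t).continuousAt
  have hsub : ∀ t, ε * (Real.sin (ψ t) - Real.sin (φ t)) = g t * (ψ t - φ t) := by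
    intro t
    rw [Real.sin_sub_sin, hg]
    simp only
    have h1 : Real.sin ((ψ t - φ t) / 2) = Real.sinc ((ψ t - φ t) / 2) * ((ψ t - φ t) / 2) := by
      by_cases h0 : (ψ t - φ t) / 2 = 0
      · rw [h0]; simp
      · rw [Real.sinc_of_ne_zero h0, div_mul_cancel₀ _ h0]
    rw [h1]; ring
  refine ⟨G, hGc, by rw [hG]; simp, ?_, ?_⟩
  · intro t
    rw [hG]
    have h1 : ∀ s ∈ Set.uIoc 0 t, ‖g s‖ ≤ |ε| := by
      intro s _
      rw [hg, Real.norm_eq_abs]
      simp only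
      rw [abs_mul, abs_mul]
      have h2 := Real.abs_cos_le_one ((ψ s + φ s) / 2)
      have h3 := Real.abs_sinc_le_one ((ψ s - φ s) / 2)
      have h4 : |Real.cos ((ψ s + φ s) / 2)| * |Real.sinc ((ψ s - φ s) / 2)| ≤ 1 :=
        mul_le_one₀ h2 (abs_nonneg _) h3
      have h5 := abs_nonneg ε
      nlinarith
    have h2 := intervalIntegral.norm_integral_le_of_norm_le_const h1
    rwa [sub_zero, Real.norm_eq_abs] at h2
  · intro t
    have hF : ∀ s, HasDerivAt (fun s => (ψ s - φ s) * Real.exp (G s))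
        (((b' - b) + (α' - α) * Real.cos s) * Real.exp (G s)) s := by
      intro s
      have h1 := ((h' s).sub (h s)).mul ((hGd s).exp)
      refine h1.congr_deriv ?_
      have h2 := hsub s
      rw [mul_sub] at h2
      simp only [Pi.sub_apply]
      linear_combination (-Real.exp (G s)) * h2
    have h2 := intervalIntegral.integral_eq_sub_of_hasDerivAt (a := 0) (b := t)
      (fun s _ => hF s) (by
        apply Continuous.intervalIntegrable
        fun_prop)
    rw [h2]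
    have h3 : G 0 = 0 := by rw [hG]; simp
    rw [h3, Real.exp_zero]; ring

/-- two solutions of the same equation -/
lemma same {ε b α : ℝ} {φ ψ : ℝ → ℝ} (h : IsSol ε b α φ) (h' : IsSol ε b α ψ) :
    ∃ G : ℝ → ℝ, Continuous G ∧ ∀ t, (ψ t - φ t) * Real.exp (G t) = ψ 0 - φ 0 := by
  obtain ⟨G, h1, -, -, h2⟩ := delta h h'
  refine ⟨G, h1, fun t => ?_⟩
  rw [h2]; simp

lemma unique {ε b α : ℝ} {φ ψ : ℝ → ℝ} (h : IsSol ε b α φ) (h' : IsSol ε b α ψ) {t₀ : ℝ}
    (h0 : φ t₀ = ψ t₀) : φ = ψ := by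
  obtain ⟨G, -, hG⟩ := same h h'
  have h1 := hG t₀
  rw [h0, sub_self, zero_mul] at h1
  funext t
  have h2 := hG t
  rw [← h1] at h2
  rcases mul_eq_zero.mp h2 with h3 | h3
  · linarith
  · exact absurd h3 (Real.exp_pos _).ne'

lemma lt_of_lt {ε b α : ℝ} {φ ψ : ℝ → ℝ} (h : IsSol ε b α φ) (h' : IsSol ε b α ψ) {t₀ : ℝ}
    (h0 : φ t₀ < ψ t₀) (t : ℝ) : φ t < ψ t := by
  obtain ⟨G, -, hG⟩ := same h h'
  have h1 := hG t₀
  have h2 : 0 < ψ 0 - φ 0 := by
    rw [← h1]; exact mul_pos (by linarith) (Real.exp_pos _)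
  have h3 := hG t
  by_contra hcon
  push Not at hcon
  have : (ψ t - φ t) * Real.exp (G t) ≤ 0 :=
    mul_nonpos_of_nonpos_of_nonneg (by linarith) (Real.exp_pos _).le
  linarith

lemma le_of_le {ε b α : ℝ} {φ ψ : ℝ → ℝ} (h : IsSol ε b α φ) (h' : IsSol ε b α ψ) {t₀ : ℝ}
    (h0 : φ t₀ ≤ ψ t₀) (t : ℝ) : φ t ≤ ψ t := by
  rcases h0.eq_or_lt with h1 | h1
  · rw [unique h h' h1]
  · exact (lt_of_lt h h' h1 t).le

/-- strict monotonicity in the parameter `b` -/
lemma mono_b {ε b b' α : ℝ} {φ ψ : ℝ → ℝ} (h : IsSol ε b α φ) (h' : IsSol ε b' α ψ)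
    (hb : b < b') (h0 : φ 0 ≤ ψ 0) {t : ℝ} (ht : 0 < t) : φ t < ψ t := by
  obtain ⟨G, hGc, -, -, hG⟩ := delta h h'
  have h1 := hG t
  have h2 : 0 < ∫ s in (0:ℝ)..t, ((b' - b) + (α - α) * Real.cos s) * Real.exp (G s) := by
    apply intervalIntegral.intervalIntegral_pos_of_pos _ _ ht
    · apply Continuous.intervalIntegrable
      fun_prop
    · intro s
      rw [sub_self, zero_mul, add_zero]
      exact mul_pos (by linarith) (Real.exp_pos _)
  by_contra hcon
  push Not at hcon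
  have : (ψ t - φ t) * Real.exp (G t) ≤ 0 :=
    mul_nonpos_of_nonpos_of_nonneg (by linarith) (Real.exp_pos _).le
  linarith

/-- Lipschitz dependence -/
lemma dist_le {ε b b' α α' : ℝ} {φ ψ : ℝ → ℝ} (h : IsSol ε b α φ) (h' : IsSol ε b' α' ψ)
    {T t : ℝ} (ht0 : 0 ≤ t) (ht : t ≤ T) :
    |ψ t - φ t| ≤ Real.exp (2 * |ε| * T) * (|ψ 0 - φ 0| + T * (|b' - b| + |α' - α|)) := by
  obtain ⟨G, hGc, -, hGb, hG⟩ := delta h h'
  have hT : 0 ≤ T := ht0.trans ht
  have hE : ∀ s, 0 ≤ s → s ≤ T → Real.exp (G s) ≤ Real.exp (|ε| * T) := by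
    intro s hs0 hs
    apply Real.exp_le_exp.mpr
    have h1 := (le_abs_self (G s)).trans (hGb s)
    rw [abs_of_nonneg hs0] at h1
    have := mul_le_mul_of_nonneg_left hs (abs_nonneg ε)
    linarith
  have h1 : |∫ s in (0:ℝ)..t, ((b' - b) + (α' - α) * Real.cos s) * Real.exp (G s)| ≤
      ((|b' - b| + |α' - α|) * Real.exp (|ε| * T)) * |t - 0| := by
    rw [← Real.norm_eq_abs]
    apply intervalIntegral.norm_integral_le_of_norm_le_const
    intro s hs
    rw [uIoc_of_le ht0] at hs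
    rw [Real.norm_eq_abs, abs_mul, abs_of_pos (Real.exp_pos _)]
    apply mul_le_mul _ (hE s hs.1.le (hs.2.trans ht)) (Real.exp_pos _).le (by positivity)
    refine (abs_add_le _ _).trans ?_
    rw [abs_mul]
    have := mul_le_of_le_one_right (abs_nonneg (α' - α)) (Real.abs_cos_le_one s)
    linarith
  rw [sub_zero, abs_of_nonneg ht0] at h1
  have h2 := hG t
  have h3 : ψ t - φ t = ((ψ 0 - φ 0) +
      ∫ s in (0:ℝ)..t, ((b' - b) + (α' - α) * Real.cos s) * Real.exp (G s)) *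
        Real.exp (-(G t)) := by
    rw [← h2, mul_assoc, ← Real.exp_add]; simp
  rw [h3, abs_mul, abs_of_pos (Real.exp_pos _)]
  have h4 : Real.exp (-(G t)) ≤ Real.exp (|ε| * T) := by
    apply Real.exp_le_exp.mpr
    have h1 := (neg_abs_le (G t))
    have h5 := hGb t
    rw [abs_of_nonneg ht0] at h5
    have := mul_le_mul_of_nonneg_left ht (abs_nonneg ε)
    linarith
  have h5 : Real.exp (2 * |ε| * T) = Real.exp (|ε| * T) * Real.exp (|ε| * T) := by
    rw [← Real.exp_add]; congr 1; ring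
  have h6 : 1 ≤ Real.exp (|ε| * T) := Real.one_le_exp (by positivity)
  have h7 : |(ψ 0 - φ 0) +
      ∫ s in (0:ℝ)..t, ((b' - b) + (α' - α) * Real.cos s) * Real.exp (G s)| ≤
      Real.exp (|ε| * T) * (|ψ 0 - φ 0| + T * (|b' - b| + |α' - α|)) := by
    refine (abs_add_le _ _).trans ?_
    have h8 : |ψ 0 - φ 0| ≤ Real.exp (|ε| * T) * |ψ 0 - φ 0| :=
      le_mul_of_one_le_left (abs_nonneg _) h6
    have h9 : (|b' - b| + |α' - α|) * Real.exp (|ε| * T) * t ≤
        (|b' - b| + |α' - α|) * Real.exp (|ε| * T) * T := by gcongr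
    linarith
  calc _ ≤ (Real.exp (|ε| * T) * (|ψ 0 - φ 0| + T * (|b' - b| + |α' - α|))) *
        Real.exp (|ε| * T) := mul_le_mul h7 h4 (Real.exp_pos _).le (by positivity)
    _ = _ := by rw [h5]; ring

/-! ### existence -/

lemma exists_sol_Icc (ε b α x : ℝ) (T : ℝ) (hT : 0 < T) : ∃ φ : ℝ → ℝ, φ 0 = x ∧
    ∀ t ∈ Ioo (-T) T, HasDerivAt φ (b + α * Real.cos t - ε * Real.sin (φ t)) t := by
  set f : ℝ → ℝ → ℝ := fun t y => b + α * Real.cos t - ε * Real.sin y with hf
  set L : ℝ≥0 := ⟨|b| + |α| + |ε|, by positivity⟩ with hL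
  set a : ℝ≥0 := ⟨(|b| + |α| + |ε|) * T, by positivity⟩ with ha
  set K : ℝ≥0 := ⟨|ε|, abs_nonneg ε⟩ with hK
  have h0 : (0:ℝ) ∈ Icc (-T) T := ⟨by linarith, hT.le⟩
  have hpl : IsPicardLindelof f (tmin := -T) (tmax := T) ⟨0, h0⟩ x a 0 L K := by
    refine ⟨?_, ?_, ?_, ?_⟩
    · intro t _
      apply LipschitzWith.lipschitzOnWith
      apply LipschitzWith.of_dist_le_mul
      intro y z
      rw [Real.dist_eq, Real.dist_eq, hf]
      simp only
      have h1 : b + α * Real.cos t - ε * Real.sin y - (b + α * Real.cos t - ε * Real.sin z) =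
          ε * (Real.sin z - Real.sin y) := by ring
      rw [h1, abs_mul]
      have h2 : |Real.sin z - Real.sin y| ≤ |z - y| := by
        have := Real.lipschitzWith_sin.dist_le_mul z y
        simpa [Real.dist_eq] using this
      rw [abs_sub_comm y z]
      exact mul_le_mul_of_nonneg_left h2 (abs_nonneg ε)
    · intro y _
      apply Continuous.continuousOn
      rw [hf]; fun_prop
    · intro t _ y _
      rw [hf, Real.norm_eq_abs]
      simp only
      have h1 := Real.abs_cos_le_one t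
      have h2 := Real.abs_sin_le_one y
      have h3 := abs_sub (b + α * Real.cos t) (ε * Real.sin y)
      have h4 := abs_add_le b (α * Real.cos t)
      have h5 : |α * Real.cos t| ≤ |α| := by
        rw [abs_mul]; exact mul_le_of_le_one_right (abs_nonneg _) h1
      have h6 : |ε * Real.sin y| ≤ |ε| := by
        rw [abs_mul]; exact mul_le_of_le_one_right (abs_nonneg _) h2
      change _ ≤ |b| + |α| + |ε|
      linarith
    · change (|b| + |α| + |ε|) * max (T - 0) (0 - -T) ≤ (|b| + |α| + |ε|) * T - 0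
      simp
  obtain ⟨φ, h1, h2⟩ := hpl.exists_eq_forall_mem_Icc_hasDerivWithinAt₀
  refine ⟨φ, h1, fun t ht => ?_⟩
  exact (h2 t (Ioo_subset_Icc_self ht)).hasDerivAt (Icc_mem_nhds ht.1 ht.2)

theorem exists_sol (ε b α x : ℝ) : ∃ φ : ℝ → ℝ, IsSol ε b α φ ∧ φ 0 = x := by
  have hch : ∀ n : ℕ, ∃ φ : ℝ → ℝ, φ 0 = x ∧ ∀ t ∈ Ioo (-((n:ℝ) + 1)) ((n:ℝ) + 1),
      HasDerivAt φ (b + α * Real.cos t - ε * Real.sin (φ t)) t := fun n =>
    exists_sol_Icc ε b α x (n + 1) (by positivity)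
  choose F hF0 hF using hch
  have hlip : ∀ t : ℝ, LipschitzOnWith (⟨|ε|, abs_nonneg ε⟩ : ℝ≥0)
      (fun y => b + α * Real.cos t - ε * Real.sin y) univ := by
    intro t
    apply LipschitzWith.lipschitzOnWith
    apply LipschitzWith.of_dist_le_mul
    intro y z
    rw [Real.dist_eq, Real.dist_eq]
    have h1 : b + α * Real.cos t - ε * Real.sin y - (b + α * Real.cos t - ε * Real.sin z) =
        ε * (Real.sin z - Real.sin y) := by ring
    rw [h1, abs_mul]
    have h2 : |Real.sin z - Real.sin y| ≤ |z - y| := by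
      have := Real.lipschitzWith_sin.dist_le_mul z y
      simpa [Real.dist_eq] using this
    rw [abs_sub_comm y z]
    exact mul_le_mul_of_nonneg_left h2 (abs_nonneg ε)
  have heq : ∀ m n : ℕ, m ≤ n → ∀ t ∈ Ioo (-((m:ℝ) + 1)) ((m:ℝ) + 1), F m t = F n t := by
    intro m n hmn
    have hmn' : (m:ℝ) ≤ n := by exact_mod_cast hmn
    have := ODE_solution_unique_of_mem_Ioo (t₀ := 0) (f := F m) (g := F n)
      (v := fun t y => b + α * Real.cos t - ε * Real.sin y) (s := fun _ => univ)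
      (a := -((m:ℝ) + 1)) (b := (m:ℝ) + 1) (K := ⟨|ε|, abs_nonneg ε⟩)
      (fun t _ => hlip t) ⟨by have : (0:ℝ) ≤ m := by positivity
                              linarith, by positivity⟩
      (fun t ht => ⟨hF m t ht, mem_univ _⟩)
      (fun t ht => ⟨hF n t ⟨by linarith [ht.1], by linarith [ht.2]⟩, mem_univ _⟩)
      (by rw [hF0, hF0])
    exact this
  refine ⟨fun t => F ⌈|t|⌉₊ t, ?_, by simp [hF0]⟩
  intro t
  set N := ⌈|t| + 1⌉₊ with hN
  have hNt : |t| + 1 ≤ N := Nat.le_ceil _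
  have hmem : t ∈ Ioo (-((N:ℝ) + 1)) ((N:ℝ) + 1) := by
    have := abs_le.mp (le_refl |t|)
    constructor <;> linarith [this.1, this.2]
  have hev : (fun s => F ⌈|s|⌉₊ s) =ᶠ[𝓝 t] F N := by
    have hopen : Ioo (t - 1/2) (t + 1/2) ∈ 𝓝 t := Ioo_mem_nhds (by linarith) (by linarith)
    filter_upwards [hopen] with s hs
    have hs1 : |s| ≤ |t| + 1 := by
      have := abs_sub_abs_le_abs_sub s t
      have h2 : |s - t| ≤ 1 := by rw [abs_le]; constructor <;> linarith [hs.1, hs.2]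
      linarith
    have hle : ⌈|s|⌉₊ ≤ N := Nat.ceil_mono hs1
    apply heq _ _ hle
    have h3 : |s| ≤ ⌈|s|⌉₊ := Nat.le_ceil _
    have := abs_le.mp (le_refl |s|)
    constructor <;> linarith [this.1, this.2]
  have h1 := hF N t hmem
  have h2 : F ⌈|t|⌉₊ t = F N t := hev.eq_of_nhds
  rw [← h2] at h1
  exact h1.congr_of_eventuallyEq hev

/-! ### symmetries -/

section Sym

variable {ε b α : ℝ} {φ : ℝ → ℝ}

lemma IsSol.shift (h : IsSol ε b α φ) : IsSol ε b α (fun t => φ (t + 2 * Real.pi)) := by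
  intro t
  have h1 := (h (t + 2 * Real.pi)).comp_add_const t (2 * Real.pi)
  rw [Real.cos_add_two_pi] at h1
  exact h1

lemma IsSol.add_int (h : IsSol ε b α φ) (k : ℤ) :
    IsSol ε b α (fun t => φ t + 2 * Real.pi * k) := by
  intro t
  have h1 := (h t).add_const (2 * Real.pi * k)
  have h2 : Real.sin (φ t + 2 * Real.pi * k) = Real.sin (φ t) := by
    rw [show φ t + 2 * Real.pi * k = φ t + k * (2 * Real.pi) by ring,
      Real.sin_add_int_mul_two_pi]
  rw [h2]
  exact h1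

lemma IsSol.reflect (h : IsSol ε b α φ) : IsSol ε b α (fun t => Real.pi - φ (-t)) := by
  intro t
  have h1 := (h (-t)).scomp t (hasDerivAt_neg t)
  have h2 := h1.const_sub Real.pi
  rw [Real.cos_neg] at h2
  refine h2.congr_deriv ?_
  rw [Real.sin_pi_sub]; simp

end Sym

end Pool.Agent.Work.MP_1ba01c_an
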