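import Pool.Agent.Work.MP_1ba01c_an.Adj

set_option autoImplicit false

open Set Filter Topology MeasureTheory
open scoped NNReal

namespace Pool.Agent.Work.MP_1ba01c_an

variable {ε b α : ℝ} {φ : ℝ → ℝ}

lemma sol_formula (h : IsSol ε b α φ) (t : ℝ) :
    φ t = φ 0 + b * t + α * Real.sin t - ε * ∫ s in (0:ℝ)..t, Real.sin (φ s) := by
  have hc := h.continuous
  have hc' : Continuous fun s => Real.sin (φ s) := by fun_prop
  have h1 := intervalIntegral.integral_eq_sub_of_hasDerivAt (a := 0) (b := t) (fun s _ => h s) (by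
    apply Continuous.intervalIntegrable; fun_prop)
  rw [intervalIntegral.integral_sub, intervalIntegral.integral_add,
    intervalIntegral.integral_const, intervalIntegral.integral_const_mul,
    intervalIntegral.integral_const_mul, integral_cos] at h1
  · simp at h1
    linarith
  · apply Continuous.intervalIntegrable; fun_prop
  · apply Continuous.intervalIntegrable; fun_prop
  · apply Continuous.intervalIntegrable; fun_prop
  · apply Continuous.intervalIntegrable; fun_prop

lemma abs_int_sin_le (φ : ℝ → ℝ) {t : ℝ} (ht : 0 ≤ t) :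
    |∫ s in (0:ℝ)..t, Real.sin (φ s)| ≤ t := by
  have h := intervalIntegral.norm_integral_le_of_norm_le_const (a := 0) (b := t) (C := 1)
    (f := fun s => Real.sin (φ s)) (fun s _ => by
      rw [Real.norm_eq_abs]; exact Real.abs_sin_le_one _)
  rw [Real.norm_eq_abs, one_mul, sub_zero, abs_of_nonneg ht] at h
  exact h

lemma end_dist (x α : ℝ) (ε b b' : ℝ) :
    |fl ε b' α x Real.pi - fl ε b α x Real.pi| ≤
      Real.exp (2 * |ε| * Real.pi) * (Real.pi * |b' - b|) := by
  have h := dist_le (fl_sol ε b α x) (fl_sol ε b' α x) (T := Real.pi) (t := Real.pi)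
    Real.pi_pos.le le_rfl
  rw [fl_zero, fl_zero, sub_self, sub_self, abs_zero, zero_add, add_zero] at h
  exact h

lemma exists_b (hε : 0 ≤ ε) (α x : ℝ) (r : ℤ) :
    ∃ b, fl ε b α x Real.pi = x + Real.pi * r := by
  have hpi := Real.pi_pos
  have hcont : Continuous fun b => fl ε b α x Real.pi := by
    have : LipschitzWith ⟨Real.exp (2 * |ε| * Real.pi) * Real.pi, by positivity⟩
        (fun b => fl ε b α x Real.pi) := by
      apply LipschitzWith.of_dist_le_mul
      intro b b'
      rw [Real.dist_eq, Real.dist_eq]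
      have h := end_dist x α ε b' b
      rw [← mul_assoc] at h
      exact h
    exact this.continuous
  have hb : ∀ b, |fl ε b α x Real.pi - (x + b * Real.pi)| ≤ ε * Real.pi := by
    intro b
    have h1 := sol_formula (fl_sol ε b α x) Real.pi
    rw [fl_zero, Real.sin_pi, mul_zero, add_zero] at h1
    have h2 := abs_int_sin_le (fl ε b α x) hpi.le
    rw [h1]
    have e : x + b * Real.pi - ε * (∫ s in (0:ℝ)..Real.pi, Real.sin (fl ε b α x s)) -
        (x + b * Real.pi) = -(ε * ∫ s in (0:ℝ)..Real.pi, Real.sin (fl ε b α x s)) := by ring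
    rw [e, abs_neg, abs_mul, abs_of_nonneg hε]
    exact mul_le_mul_of_nonneg_left h2 hε
  have h1 := hb (r - ε)
  have h2 := hb (r + ε)
  rw [abs_le] at h1 h2
  have hmem : x + Real.pi * r ∈ Icc (fl ε ((r:ℝ) - ε) α x Real.pi)
      (fl ε ((r:ℝ) + ε) α x Real.pi) := ⟨by nlinarith [h1.2], by nlinarith [h2.1]⟩
  obtain ⟨b, -, hb'⟩ := isPreconnected_univ.intermediate_value (mem_univ ((r:ℝ) - ε))
    (mem_univ ((r:ℝ) + ε)) hcont.continuousOn hmem
  exact ⟨b, hb'⟩

/-- the parameter for which the solution starting at `x` advances by `π r` in time `π` -/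
noncomputable def bs (ε α x : ℝ) (r : ℤ) : ℝ := by
  classical
  exact if h : ∃ b, fl ε b α x Real.pi = x + Real.pi * r then Classical.choose h else 0

lemma bs_spec (hε : 0 ≤ ε) (α x : ℝ) (r : ℤ) :
    fl ε (bs ε α x r) α x Real.pi = x + Real.pi * r := by
  have h := exists_b hε α x r
  unfold bs
  rw [dif_pos h]
  exact Classical.choose_spec h

lemma b_unique {b b' α x : ℝ} (h : fl ε b α x Real.pi = fl ε b' α x Real.pi) : b = b' := by
  by_contra hne
  rcases lt_or_gt_of_ne hne with h1 | h1
  · have := mono_b (fl_sol ε b α x) (fl_sol ε b' α x) h1 (by rw [fl_zero, fl_zero]) Real.pi_pos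
    linarith
  · have := mono_b (fl_sol ε b' α x) (fl_sol ε b α x) h1 (by rw [fl_zero, fl_zero]) Real.pi_pos
    linarith

lemma adj_iff (hε : 0 ≤ ε) (b α : ℝ) (r : ℤ) :
    Adj ε b α r ↔ b = bs ε α (Real.pi / 2) r ∧ b = bs ε α (-(Real.pi / 2)) r := by
  have h1 := bs_spec hε α (Real.pi / 2) r
  have h2 := bs_spec hε α (-(Real.pi / 2)) r
  constructor
  · rintro ⟨h3, h4⟩
    exact ⟨b_unique (by rw [h3, h1]), b_unique (by rw [h4, h2])⟩
  · rintro ⟨h3, h4⟩
    refine ⟨?_, ?_⟩
    · rw [h3]; exact h1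
    · rw [h4]; exact h2

lemma bs_lip (hε : 0 ≤ ε) (α α' x : ℝ) (r : ℤ) :
    |bs ε α' x r - bs ε α x r| ≤ |α' - α| := by
  have hpi := Real.pi_pos
  obtain ⟨G, hGc, -, -, hG⟩ := delta (fl_sol ε (bs ε α x r) α x) (fl_sol ε (bs ε α' x r) α' x)
  have h1 := hG Real.pi
  rw [bs_spec hε, bs_spec hε, fl_zero, fl_zero, sub_self, zero_mul, sub_self, zero_add] at h1
  set β := bs ε α' x r - bs ε α x r with hβ
  set γ := α' - α with hγ
  have hI : 0 < ∫ s in (0:ℝ)..Real.pi, Real.exp (G s) := by
    apply intervalIntegral.intervalIntegral_pos_of_pos _ _ hpi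
    · apply Continuous.intervalIntegrable; fun_prop
    · intro s; exact Real.exp_pos _
  have h2 : β * (∫ s in (0:ℝ)..Real.pi, Real.exp (G s)) =
      -(γ * ∫ s in (0:ℝ)..Real.pi, Real.cos s * Real.exp (G s)) := by
    have h3 : ∫ s in (0:ℝ)..Real.pi, (β + γ * Real.cos s) * Real.exp (G s) =
        β * (∫ s in (0:ℝ)..Real.pi, Real.exp (G s)) +
          γ * ∫ s in (0:ℝ)..Real.pi, Real.cos s * Real.exp (G s) := by
      rw [← intervalIntegral.integral_const_mul, ← intervalIntegral.integral_const_mul,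
        ← intervalIntegral.integral_add]
      · congr 1; funext s; ring
      · apply Continuous.intervalIntegrable; fun_prop
      · apply Continuous.intervalIntegrable; fun_prop
    rw [h3] at h1
    linarith
  have h4 : |∫ s in (0:ℝ)..Real.pi, Real.cos s * Real.exp (G s)| ≤
      ∫ s in (0:ℝ)..Real.pi, Real.exp (G s) := by
    refine (intervalIntegral.abs_integral_le_integral_abs hpi.le).trans ?_
    apply intervalIntegral.integral_mono_on hpi.le
    · apply Continuous.intervalIntegrable; fun_prop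
    · apply Continuous.intervalIntegrable; fun_prop
    · intro s _
      rw [abs_mul, abs_of_pos (Real.exp_pos _)]
      exact mul_le_of_le_one_left (Real.exp_pos _).le (Real.abs_cos_le_one s)
  have h5 := congrArg abs h2
  rw [abs_mul, abs_neg, abs_mul, abs_of_pos hI] at h5
  have h6 : |β| * (∫ s in (0:ℝ)..Real.pi, Real.exp (G s)) ≤
      |γ| * (∫ s in (0:ℝ)..Real.pi, Real.exp (G s)) := by
    rw [h5]
    exact mul_le_mul_of_nonneg_left h4 (abs_nonneg _)
  exact le_of_mul_le_mul_right h6 hI

lemma abs_sin_sub_le (x y : ℝ) : |Real.sin x - Real.sin y| ≤ |x - y| := by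
  have := Real.lipschitzWith_sin.dist_le_mul x y
  simpa [Real.dist_eq] using this

lemma abs_cos_sub_le (x y : ℝ) : |Real.cos x - Real.cos y| ≤ |x - y| := by
  have := Real.lipschitzWith_cos.dist_le_mul x y
  simpa [Real.dist_eq] using this

/-- `b` is within `ε` of `r` -/
lemma b_near {x : ℝ} {r : ℤ} (hε : 0 ≤ ε) (h : IsSol ε b α φ)
    (h1 : φ 0 = x) (h2 : φ Real.pi = x + Real.pi * r) : |b - r| ≤ ε := by
  have hpi := Real.pi_pos
  have h3 := sol_formula h Real.pi
  rw [h1, h2, Real.sin_pi, mul_zero, add_zero] at h3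
  have h4 := abs_int_sin_le φ hpi.le
  have h5 : Real.pi * (b - r) = ε * ∫ s in (0:ℝ)..Real.pi, Real.sin (φ s) := by linarith
  have h6 := congrArg abs h5
  rw [abs_mul, abs_mul, abs_of_pos hpi, abs_of_nonneg hε] at h6
  have h7 : ε * |∫ s in (0:ℝ)..Real.pi, Real.sin (φ s)| ≤ ε * Real.pi :=
    mul_le_mul_of_nonneg_left h4 hε
  nlinarith

/-- first order expansion -/
lemma first_order {x : ℝ} {r : ℤ} (hε : 0 ≤ ε) (h : IsSol ε b α φ)
    (h1 : φ 0 = x) (h2 : φ Real.pi = x + Real.pi * r) :
    |Real.pi * (b - r) - ε * ∫ s in (0:ℝ)..Real.pi, Real.sin (x + r * s + α * Real.sin s)| ≤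
      ε ^ 2 * Real.pi ^ 2 := by
  have hpi := Real.pi_pos
  have hc := h.continuous
  have hb := b_near hε h h1 h2
  have h3 := sol_formula h Real.pi
  rw [h1, h2, Real.sin_pi, mul_zero, add_zero] at h3
  have h5 : Real.pi * (b - r) = ε * ∫ s in (0:ℝ)..Real.pi, Real.sin (φ s) := by linarith
  rw [h5, ← mul_sub, ← intervalIntegral.integral_sub, abs_mul, abs_of_nonneg hε]
  · have h6 : |∫ s in (0:ℝ)..Real.pi, (Real.sin (φ s) - Real.sin (x + r * s + α * Real.sin s))| ≤
        ∫ s in (0:ℝ)..Real.pi, 2 * ε * s := by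
      refine (intervalIntegral.abs_integral_le_integral_abs hpi.le).trans ?_
      apply intervalIntegral.integral_mono_on hpi.le
      · apply Continuous.intervalIntegrable; fun_prop
      · apply Continuous.intervalIntegrable; fun_prop
      · intro s hs
        refine (abs_sin_sub_le _ _).trans ?_
        have h7 := sol_formula h s
        rw [h1] at h7
        rw [h7]
        have h8 := abs_int_sin_le φ hs.1
        have e : x + b * s + α * Real.sin s - ε * (∫ u in (0:ℝ)..s, Real.sin (φ u)) -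
            (x + r * s + α * Real.sin s) = (b - r) * s -
              ε * (∫ u in (0:ℝ)..s, Real.sin (φ u)) := by ring
        rw [e]
        refine (abs_sub _ _).trans ?_
        rw [abs_mul, abs_mul, abs_of_nonneg hs.1, abs_of_nonneg hε]
        have h9 := mul_le_mul_of_nonneg_right hb hs.1
        have h10 := mul_le_mul_of_nonneg_left h8 hε
        linarith
    rw [intervalIntegral.integral_const_mul, integral_id] at h6
    have h7 := mul_le_mul_of_nonneg_left h6 hε
    refine h7.trans (le_of_eq ?_)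
    ring
  · apply Continuous.intervalIntegrable; fun_prop
  · apply Continuous.intervalIntegrable; fun_prop

/-- `(-1)^r π J_r(α)` -/
noncomputable def Cr (r : ℕ) (α : ℝ) : ℝ := ∫ s in (0:ℝ)..Real.pi, Real.cos (r * s + α * Real.sin s)

/-- the difference of the two parameters -/
lemma diff_bs (hε : 0 ≤ ε) (α : ℝ) (r : ℕ) :
    |Real.pi * (bs ε α (Real.pi / 2) r - bs ε α (-(Real.pi / 2)) r) - 2 * ε * Cr r α| ≤
      2 * (ε ^ 2 * Real.pi ^ 2) := by
  have h1 := first_order hε (fl_sol ε (bs ε α (Real.pi / 2) r) α (Real.pi / 2)) (fl_zero _ _ _ _)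
    (bs_spec hε α (Real.pi / 2) r)
  have h2 := first_order hε (fl_sol ε (bs ε α (-(Real.pi / 2)) r) α (-(Real.pi / 2)))
    (fl_zero _ _ _ _) (bs_spec hε α (-(Real.pi / 2)) r)
  have e1 : ∫ s in (0:ℝ)..Real.pi, Real.sin (Real.pi / 2 + ((r:ℕ):ℤ) * s + α * Real.sin s) =
      Cr r α := by
    unfold Cr
    apply intervalIntegral.integral_congr
    intro s _
    simp only
    rw [add_assoc, add_comm (Real.pi / 2), Real.sin_add_pi_div_two]
    push_cast; ring_nf
  have e2 : ∫ s in (0:ℝ)..Real.pi, Real.sin (-(Real.pi / 2) + ((r:ℕ):ℤ) * s + α * Real.sin s) =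
      -Cr r α := by
    unfold Cr
    rw [← intervalIntegral.integral_neg]
    apply intervalIntegral.integral_congr
    intro s _
    simp only
    rw [add_assoc, add_comm (-(Real.pi / 2)), ← sub_eq_add_neg, Real.sin_sub_pi_div_two]
    push_cast; ring_nf
  rw [e1] at h1
  rw [e2] at h2
  rw [abs_le] at h1 h2 ⊢
  constructor <;> nlinarith [h1.1, h1.2, h2.1, h2.2]

end Pool.Agent.Work.MP_1ba01c_an
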