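import Pool.Agent.Work.MP_1ba01c_an.Ode

set_option autoImplicit false

open Set Filter Topology MeasureTheory
open scoped NNReal

namespace Pool.Agent.Work.MP_1ba01c_an

/-- the solution with value `x` at time `0` -/
noncomputable def fl (ε b α x : ℝ) : ℝ → ℝ := Classical.choose (exists_sol ε b α x)

lemma fl_sol (ε b α x : ℝ) : IsSol ε b α (fl ε b α x) := (Classical.choose_spec (exists_sol ε b α x)).1
lemma fl_zero (ε b α x : ℝ) : fl ε b α x 0 = x := (Classical.choose_spec (exists_sol ε b α x)).2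

lemma eq_fl {ε b α : ℝ} {φ : ℝ → ℝ} (h : IsSol ε b α φ) : φ = fl ε b α (φ 0) :=
  unique h (fl_sol _ _ _ _) (t₀ := 0) (fl_zero _ _ _ _).symm

/-- the Poincare map -/
noncomputable def PM (ε b α x : ℝ) : ℝ := fl ε b α x (2 * Real.pi)

lemma PM_eq {ε b α : ℝ} {φ : ℝ → ℝ} (h : IsSol ε b α φ) : φ (2 * Real.pi) = PM ε b α (φ 0) := by
  unfold PM; rw [← eq_fl h]

lemma PM_add_int (ε b α x : ℝ) (k : ℤ) :
    PM ε b α (x + 2 * Real.pi * k) = PM ε b α x + 2 * Real.pi * k := by
  have h := (fl_sol ε b α x).add_int k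
  have h2 := PM_eq h
  simp only [fl_zero] at h2
  rw [← h2]; rfl

lemma PM_dist (ε b b' α α' x x' : ℝ) :
    |PM ε b' α' x' - PM ε b α x| ≤ Real.exp (2 * |ε| * (2 * Real.pi)) *
      (|x' - x| + (2 * Real.pi) * (|b' - b| + |α' - α|)) := by
  have hpi := Real.pi_pos
  have h := dist_le (fl_sol ε b α x) (fl_sol ε b' α' x') (T := 2 * Real.pi) (t := 2 * Real.pi)
    (by positivity) le_rfl
  rw [fl_zero, fl_zero] at h
  exact h

lemma PM_continuous (ε b α : ℝ) : Continuous (PM ε b α) := by
  have : LipschitzWith ⟨Real.exp (2 * |ε| * (2 * Real.pi)), (Real.exp_pos _).le⟩ (PM ε b α) := by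
    apply LipschitzWith.of_dist_le_mul
    intro x y
    rw [Real.dist_eq, Real.dist_eq]
    have h := PM_dist ε b b α α y x
    rw [sub_self, sub_self, abs_zero, add_zero, mul_zero, add_zero] at h
    exact h
  exact this.continuous

lemma PM_mono_b (ε α x : ℝ) {b b' : ℝ} (hb : b < b') : PM ε b α x < PM ε b' α x := by
  have hpi := Real.pi_pos
  exact mono_b (fl_sol ε b α x) (fl_sol ε b' α x) hb (by rw [fl_zero, fl_zero]) (by positivity)

/-! ### rotation number -/

/-- rotation number of the scaled equation -/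
def HasRot (ε b α ρ : ℝ) : Prop :=
  ∀ φ, IsSol ε b α φ → Tendsto (fun t => φ t / t) atTop (𝓝 ρ)

lemma per_of_fix {ε b α : ℝ} {φ : ℝ → ℝ} {r : ℤ} (h : IsSol ε b α φ)
    (h0 : φ (2 * Real.pi) = φ 0 + 2 * Real.pi * r) (t : ℝ) :
    φ (t + 2 * Real.pi) = φ t + 2 * Real.pi * r := by
  have := unique h.shift (h.add_int r) (t₀ := 0) (by simpa using h0)
  exact congrFun this t

/-- a continuous function with `φ (t + 2π) = φ t + 2πr` stays close to `r t` -/
lemma bounded_of_per {φ : ℝ → ℝ} {r : ℤ} (hc : Continuous φ)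
    (hp : ∀ t, φ (t + 2 * Real.pi) = φ t + 2 * Real.pi * r) : ∃ M, ∀ t, |φ t - r * t| ≤ M := by
  have hpi := Real.pi_pos
  have hper : Function.Periodic (fun t => φ t - r * t) (2 * Real.pi) := by
    intro t
    simp only
    rw [hp]; ring
  have hcont : Continuous (fun t => φ t - r * t) := by fun_prop
  obtain ⟨M, hM⟩ := (isCompact_Icc (a := (0:ℝ)) (b := 2 * Real.pi)).exists_bound_of_continuousOn
    hcont.continuousOn
  refine ⟨M, fun t => ?_⟩
  obtain ⟨s, hs, hst⟩ := hper.exists_mem_Ico₀ (by positivity) t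
  rw [hst]
  exact hM s (Ico_subset_Icc_self hs)

lemma tendsto_of_bounded {φ : ℝ → ℝ} {ρ M : ℝ} (h : ∀ t, |φ t - ρ * t| ≤ M) :
    Tendsto (fun t => φ t / t) atTop (𝓝 ρ) := by
  have h1 : Tendsto (fun t : ℝ => M / t) atTop (𝓝 0) :=
    tendsto_const_nhds.div_atTop tendsto_id
  have h2 : Tendsto (fun t => φ t / t - ρ) atTop (𝓝 0) := by
    apply squeeze_zero_norm' _ h1
    filter_upwards [eventually_gt_atTop 0] with t ht
    have e : φ t / t - ρ = (φ t - ρ * t) / t := by field_simp
    rw [e, Real.norm_eq_abs, abs_div, abs_of_pos ht]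
    gcongr
    exact h t
  have h3 := h2.add_const ρ
  simpa using h3

lemma hasRot_of_fix {ε b α : ℝ} {φ : ℝ → ℝ} {r : ℤ} (h : IsSol ε b α φ)
    (h0 : φ (2 * Real.pi) = φ 0 + 2 * Real.pi * r) : HasRot ε b α r := by
  have hpi := Real.pi_pos
  obtain ⟨M, hM⟩ := bounded_of_per h.continuous (per_of_fix h h0)
  intro ψ hψ
  set k : ℤ := ⌊(ψ 0 - φ 0) / (2 * Real.pi)⌋ with hk
  have h1 : (k:ℝ) ≤ (ψ 0 - φ 0) / (2 * Real.pi) := Int.floor_le _
  have h2 : (ψ 0 - φ 0) / (2 * Real.pi) < k + 1 := Int.lt_floor_add_one _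
  rw [le_div_iff₀ (by positivity)] at h1
  rw [div_lt_iff₀ (by positivity)] at h2
  have h3 := fun t => le_of_le (h.add_int k) hψ (t₀ := 0) (by linarith) t
  have h4 := fun t => le_of_le hψ (h.add_int (k + 1)) (t₀ := 0) (by push_cast; linarith) t
  apply tendsto_of_bounded (M := M + 2 * Real.pi * (|(k:ℝ)| + 1))
  intro t
  have h5 := h3 t
  have h6 := h4 t
  have h7 := hM t
  push_cast at h6
  rw [abs_le] at h7 ⊢
  have h8 := neg_abs_le (k:ℝ)
  have h9 := le_abs_self (k:ℝ)
  constructor <;> nlinarith [h7.1, h7.2]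

lemma iterate_ge {ε b α c : ℝ} (h : ∀ x, x + c ≤ PM ε b α x) {φ : ℝ → ℝ} (hφ : IsSol ε b α φ)
    (n : ℕ) : IsSol ε b α (fun t => φ (t + n * (2 * Real.pi))) ∧ φ 0 + n * c ≤ φ (n * (2 * Real.pi)) := by
  induction n with
  | zero => simpa using hφ
  | succ n ih =>
    obtain ⟨h1, h2⟩ := ih
    have h3 := h1.shift
    have h4 := PM_eq h1
    have h5 := h (φ (0 + n * (2 * Real.pi)))
    rw [← h4] at h5
    constructor
    · have e : (fun t => φ (t + ((n + 1 : ℕ) : ℝ) * (2 * Real.pi))) =
          fun t => φ (t + 2 * Real.pi + n * (2 * Real.pi)) := by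
        funext t; congr 1; push_cast; ring
      rw [e]; exact h3
    · have e : ((n + 1 : ℕ) : ℝ) * (2 * Real.pi) = 2 * Real.pi + n * (2 * Real.pi) := by
        push_cast; ring
      rw [e]
      rw [zero_add] at h5
      push_cast
      linarith

lemma iterate_le {ε b α c : ℝ} (h : ∀ x, PM ε b α x ≤ x + c) {φ : ℝ → ℝ} (hφ : IsSol ε b α φ)
    (n : ℕ) : IsSol ε b α (fun t => φ (t + n * (2 * Real.pi))) ∧ φ (n * (2 * Real.pi)) ≤ φ 0 + n * c := by
  induction n with
  | zero => simpa using hφ
  | succ n ih =>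
    obtain ⟨h1, h2⟩ := ih
    have h3 := h1.shift
    have h4 := PM_eq h1
    have h5 := h (φ (0 + n * (2 * Real.pi)))
    rw [← h4] at h5
    constructor
    · have e : (fun t => φ (t + ((n + 1 : ℕ) : ℝ) * (2 * Real.pi))) =
          fun t => φ (t + 2 * Real.pi + n * (2 * Real.pi)) := by
        funext t; congr 1; push_cast; ring
      rw [e]; exact h3
    · have e : ((n + 1 : ℕ) : ℝ) * (2 * Real.pi) = 2 * Real.pi + n * (2 * Real.pi) := by
        push_cast; ring
      rw [e]
      rw [zero_add] at h5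
      push_cast
      linarith

lemma tendsto_seq {φ : ℝ → ℝ} {ρ : ℝ} (h : Tendsto (fun t => φ t / t) atTop (𝓝 ρ)) :
    Tendsto (fun n : ℕ => φ (n * (2 * Real.pi)) / (n * (2 * Real.pi))) atTop (𝓝 ρ) := by
  have hpi := Real.pi_pos
  have h1 : Tendsto (fun n : ℕ => (n:ℝ) * (2 * Real.pi)) atTop atTop :=
    tendsto_natCast_atTop_atTop.atTop_mul_const (by positivity)
  exact h.comp h1

lemma not_rot_of_gt {ε b α δ : ℝ} {ρ : ℝ} (hδ : 0 < δ)
    (h : ∀ x, x + (2 * Real.pi * ρ + δ) ≤ PM ε b α x) : ¬ HasRot ε b α ρ := by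
  intro hrot
  have hpi := Real.pi_pos
  have hφ := fl_sol ε b α 0
  have h1 := tendsto_seq (hrot _ hφ)
  have h2 : ∀ᶠ n : ℕ in atTop, ρ + δ / (2 * Real.pi) ≤
      fl ε b α 0 (n * (2 * Real.pi)) / (n * (2 * Real.pi)) := by
    filter_upwards [eventually_gt_atTop 0] with n hn
    have hn' : (0:ℝ) < n := by exact_mod_cast hn
    have h3 := (iterate_ge h hφ n).2
    rw [fl_zero, zero_add] at h3
    rw [le_div_iff₀ (by positivity)]
    have e : (ρ + δ / (2 * Real.pi)) * (n * (2 * Real.pi)) = n * (2 * Real.pi * ρ + δ) := by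
      field_simp
    rw [e]; exact h3
  have h3 := ge_of_tendsto h1 h2
  have h4 : 0 < δ / (2 * Real.pi) := by positivity
  linarith

lemma not_rot_of_lt {ε b α δ : ℝ} {ρ : ℝ} (hδ : 0 < δ)
    (h : ∀ x, PM ε b α x ≤ x + (2 * Real.pi * ρ - δ)) : ¬ HasRot ε b α ρ := by
  intro hrot
  have hpi := Real.pi_pos
  have hφ := fl_sol ε b α 0
  have h1 := tendsto_seq (hrot _ hφ)
  have h2 : ∀ᶠ n : ℕ in atTop,
      fl ε b α 0 (n * (2 * Real.pi)) / (n * (2 * Real.pi)) ≤ ρ - δ / (2 * Real.pi) := by
    filter_upwards [eventually_gt_atTop 0] with n hn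
    have hn' : (0:ℝ) < n := by exact_mod_cast hn
    have h3 := (iterate_le h hφ n).2
    rw [fl_zero, zero_add] at h3
    rw [div_le_iff₀ (by positivity)]
    have e : (ρ - δ / (2 * Real.pi)) * (n * (2 * Real.pi)) = n * (2 * Real.pi * ρ - δ) := by
      field_simp
    rw [e]; exact h3
  have h3 := le_of_tendsto h1 h2
  have h4 : 0 < δ / (2 * Real.pi) := by positivity
  linarith

/-- reduction to a period -/
lemma exists_mem_period (ε b α x : ℝ) : ∃ y ∈ Icc (0:ℝ) (2 * Real.pi),
    PM ε b α x - x = PM ε b α y - y := by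
  have hpi := Real.pi_pos
  have hper : Function.Periodic (fun x => PM ε b α x - x) (2 * Real.pi) := by
    intro x
    have := PM_add_int ε b α x 1
    simp only
    rw [Int.cast_one, mul_one] at this
    rw [this]; ring
  obtain ⟨y, hy, hxy⟩ := hper.exists_mem_Ico₀ (by positivity) x
  exact ⟨y, Ico_subset_Icc_self hy, hxy⟩

theorem hasRot_iff (ε b α : ℝ) (r : ℤ) :
    HasRot ε b α r ↔ ∃ x, PM ε b α x = x + 2 * Real.pi * r := by
  have hpi := Real.pi_pos
  constructor
  · intro hrot
    by_contra hcon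
    push Not at hcon
    have hc := PM_continuous ε b α
    have hne : ∀ x, PM ε b α x - x ≠ 2 * Real.pi * r := by
      intro x hx; exact hcon x (by linarith)
    have hcd : Continuous fun x => PM ε b α x - x := hc.sub continuous_id
    have hK : IsCompact (Icc (0:ℝ) (2 * Real.pi)) := isCompact_Icc
    have hKn : (Icc (0:ℝ) (2 * Real.pi)).Nonempty := ⟨0, ⟨le_rfl, by positivity⟩⟩
    rcases lt_or_gt_of_ne (hne 0) with h0 | h0
    · have hall : ∀ x, PM ε b α x - x < 2 * Real.pi * r := by
        intro x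
        by_contra hx
        push Not at hx
        have hsub := isPreconnected_univ.intermediate_value (mem_univ (0:ℝ)) (mem_univ x)
          hcd.continuousOn
        obtain ⟨y, -, hy⟩ := hsub ⟨h0.le, hx⟩
        exact hne y hy
      obtain ⟨y, hy, hmax⟩ := hK.exists_isMaxOn hKn hcd.continuousOn
      apply not_rot_of_lt (δ := 2 * Real.pi * r - (PM ε b α y - y)) (by linarith [hall y]) _ hrot
      intro x
      obtain ⟨z, hz, hxz⟩ := exists_mem_period ε b α x
      have := hmax hz
      simp only [mem_ofPred_eq] at this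
      linarith
    · have hall : ∀ x, 2 * Real.pi * r < PM ε b α x - x := by
        intro x
        by_contra hx
        push Not at hx
        have hsub := isPreconnected_univ.intermediate_value (mem_univ x) (mem_univ (0:ℝ))
          hcd.continuousOn
        obtain ⟨y, -, hy⟩ := hsub ⟨hx, h0.le⟩
        exact hne y hy
      obtain ⟨y, hy, hmin⟩ := hK.exists_isMinOn hKn hcd.continuousOn
      apply not_rot_of_gt (δ := (PM ε b α y - y) - 2 * Real.pi * r) (by linarith [hall y]) _ hrot
      intro x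
      obtain ⟨z, hz, hxz⟩ := exists_mem_period ε b α x
      have := hmin hz
      simp only [mem_ofPred_eq] at this
      linarith
  · rintro ⟨x, hx⟩
    apply hasRot_of_fix (fl_sol ε b α x)
    rw [fl_zero]; exact hx

/-- the slice is one point iff the Poincare map is the identity up to `2πr` -/
theorem slice_iff (ε b α : ℝ) (r : ℤ) :
    {b' | HasRot ε b' α r} = {b} ↔ ∀ x, PM ε b α x = x + 2 * Real.pi * r := by
  have hpi := Real.pi_pos
  constructor
  · intro hs
    have hb : HasRot ε b α r := by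
      have : b ∈ {b' | HasRot ε b' α r} := by rw [hs]; rfl
      exact this
    obtain ⟨x₀, hx₀⟩ := (hasRot_iff _ _ _ _).mp hb
    intro x₁
    by_contra hne
    set C := Real.exp (2 * |ε| * (2 * Real.pi)) * (2 * Real.pi) with hC
    have hCpos : 0 < C := by positivity
    have hdist : ∀ b' x, |PM ε b' α x - PM ε b α x| ≤ C * |b' - b| := by
      intro b' x
      have := PM_dist ε b b' α α x x
      rw [sub_self, sub_self, abs_zero, zero_add, add_zero, ← mul_assoc] at this
      exact this
    rcases lt_or_gt_of_ne hne with h1 | h1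
    · -- take a larger parameter
      set δ := x₁ + 2 * Real.pi * r - PM ε b α x₁ with hδ
      have hδ0 : 0 < δ := by linarith
      set b' := b + δ / (2 * C) with hb'
      have hbb : b < b' := by rw [hb']; linarith [div_pos hδ0 (by positivity : 0 < 2 * C)]
      have h2 := hdist b' x₁
      have h3 : C * |b' - b| = δ / 2 := by
        rw [hb', add_sub_cancel_left, abs_of_pos (by positivity)]; field_simp
      rw [h3] at h2
      have h4 : PM ε b' α x₁ - x₁ ≤ 2 * Real.pi * r := by
        have := (abs_le.mp h2).2; linarith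
      have h5 : 2 * Real.pi * r ≤ PM ε b' α x₀ - x₀ := by
        have := PM_mono_b ε α x₀ hbb; linarith
      have hcd : Continuous fun x => PM ε b' α x - x := (PM_continuous ε b' α).sub continuous_id
      obtain ⟨y, -, hy⟩ := isPreconnected_univ.intermediate_value (mem_univ x₁) (mem_univ x₀)
          hcd.continuousOn ⟨h4, h5⟩
      have h6 : b' ∈ {b' | HasRot ε b' α r} :=
        (hasRot_iff _ _ _ _).mpr ⟨y, by simp only at hy; linarith⟩
      rw [hs] at h6
      exact hbb.ne' h6
    · set δ := PM ε b α x₁ - (x₁ + 2 * Real.pi * r) with hδ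
      have hδ0 : 0 < δ := by linarith
      set b' := b - δ / (2 * C) with hb'
      have hbb : b' < b := by rw [hb']; linarith [div_pos hδ0 (by positivity : 0 < 2 * C)]
      have h2 := hdist b' x₁
      have h3 : C * |b' - b| = δ / 2 := by
        rw [hb', sub_sub_cancel_left, abs_neg, abs_of_pos (by positivity)]; field_simp
      rw [h3] at h2
      have h4 : 2 * Real.pi * r ≤ PM ε b' α x₁ - x₁ := by
        have := (abs_le.mp h2).1; linarith
      have h5 : PM ε b' α x₀ - x₀ ≤ 2 * Real.pi * r := by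
        have := PM_mono_b ε α x₀ hbb; linarith
      have hcd : Continuous fun x => PM ε b' α x - x := (PM_continuous ε b' α).sub continuous_id
      obtain ⟨y, -, hy⟩ := isPreconnected_univ.intermediate_value (mem_univ x₀) (mem_univ x₁)
          hcd.continuousOn ⟨h5, h4⟩
      have h6 : b' ∈ {b' | HasRot ε b' α r} :=
        (hasRot_iff _ _ _ _).mpr ⟨y, by simp only at hy; linarith⟩
      rw [hs] at h6
      exact hbb.ne h6
  · intro h
    ext b'
    simp only [mem_ofPred_eq, mem_singleton_iff]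
    constructor
    · intro hb'
      obtain ⟨x, hx⟩ := (hasRot_iff _ _ _ _).mp hb'
      by_contra hne
      rcases lt_or_gt_of_ne hne with h1 | h1
      · have := PM_mono_b ε α x h1
        rw [h x] at this
        linarith
      · have := PM_mono_b ε α x h1
        rw [h x] at this
        linarith
    · rintro rfl
      exact (hasRot_iff _ _ _ _).mpr ⟨0, h 0⟩

end Pool.Agent.Work.MP_1ba01c_an
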